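import Mathlib

/-!
# Primes in the blocks `(2 ^ (i - 2), 2 ^ i]`
-/

set_option autoImplicit false

namespace Pool.Agent.H563.UQ

open Finset Filter Topology
open scoped Classical

/-- the primes of the block `i` -/
noncomputable def Bp (i : ℕ) : Finset ℕ := (Ioc (2 ^ (i - 2)) (2 ^ i)).filter Nat.Prime

lemma mem_Bp {i p : ℕ} : p ∈ Bp i ↔ 2 ^ (i - 2) < p ∧ p ≤ 2 ^ i ∧ p.Prime := by
  unfold Bp
  rw [mem_filter, mem_Ioc, and_assoc]

lemma Bp_up (i : ℕ) (hi : 4 ≤ i) : (Bp i).card * i ≤ 4 * 2 ^ i := by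
  have h1 : (2 ^ (i - 2)) ^ (Bp i).card ≤ ∏ p ∈ Bp i, p := by
    rw [← prod_const]
    apply prod_le_prod'
    intro p hp
    exact (mem_Bp.1 hp).1.le
  have h2 : ∏ p ∈ Bp i, p ≤ primorial (2 ^ i) := by
    unfold primorial
    apply prod_le_prod_of_subset_of_one_le'
    · intro p hp
      rw [mem_Bp] at hp
      rw [mem_filter, mem_range]
      exact ⟨Nat.lt_succ_of_le hp.2.1, hp.2.2⟩
    · intro p hp _
      exact (mem_filter.1 hp).2.one_le
  have h3 := (h1.trans h2).trans (primorial_le_four_pow (2 ^ i))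
  rw [← pow_mul, show (4 : ℕ) = 2 ^ 2 by norm_num, ← pow_mul] at h3
  have h4 := (Nat.pow_le_pow_iff_right (by norm_num : 1 < 2)).1 h3
  have h5 : i ≤ 2 * (i - 2) := by omega
  calc (Bp i).card * i ≤ (Bp i).card * (2 * (i - 2)) := Nat.mul_le_mul_left _ h5
    _ = 2 * ((i - 2) * (Bp i).card) := by ring
    _ ≤ 2 * (2 * 2 ^ i) := Nat.mul_le_mul_left _ h4
    _ = 4 * 2 ^ i := by ring

lemma Bp_low : ∀ᶠ i : ℕ in atTop, (2 : ℝ) ^ ((i : ℝ) / 2) ≤ (Bp i).card := by
  have hl2 := Real.log_two_gt_d9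
  have hl2' := Real.log_two_lt_d9
  -- `i` is small compared with `2 ^ (i / 2)`
  have h0 := (isLittleO_pow_exp_pos_mul_atTop (k := 1) (b := Real.log 2 / 2) (by positivity)).bound
    (show (0 : ℝ) < 1 / 100 by norm_num)
  have tN : Tendsto (fun N : ℕ => (N : ℝ)) atTop atTop := tendsto_natCast_atTop_atTop
  filter_upwards [tN.eventually h0, eventually_ge_atTop 4] with i hi hi4
  have hi4' : (4 : ℝ) ≤ i := by exact_mod_cast hi4
  rw [pow_one, Real.norm_of_nonneg (by linarith), Real.norm_of_nonneg (Real.exp_pos _).le] at hi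
  obtain ⟨E, hE⟩ : ∃ E, E = (2 : ℝ) ^ ((i : ℝ) / 2) := ⟨_, rfl⟩
  have hEe : Real.exp (Real.log 2 / 2 * i) = E := by
    rw [hE, Real.rpow_def_of_pos (by norm_num)]
    congr 1
    ring
  rw [hEe] at hi
  rw [← hE]
  have hE0 : 0 < E := by rw [← hEe]; exact Real.exp_pos _
  have hEE : ((2 ^ i : ℕ) : ℝ) = E * E := by
    rw [hE, ← Real.rpow_add (by norm_num), add_halves, Real.rpow_natCast]
    push_cast
    rfl
  have hsq : √((2 ^ i : ℕ) : ℝ) = E := by
    rw [hEE]
    exact Real.sqrt_mul_self hE0.le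
  have hlog : Real.log ((2 ^ i : ℕ) : ℝ) = i * Real.log 2 := by
    push_cast
    rw [Real.log_pow]
  have hlog1 : Real.log (((2 ^ i : ℕ) : ℝ) + 1) ≤ i + 1 := by
    have h1 : (1 : ℝ) ≤ ((2 ^ i : ℕ) : ℝ) := by exact_mod_cast Nat.one_le_pow _ _ (by norm_num)
    calc Real.log (((2 ^ i : ℕ) : ℝ) + 1) ≤ Real.log (2 * ((2 ^ i : ℕ) : ℝ)) :=
          Real.log_le_log (by positivity) (by linarith)
      _ = Real.log 2 + i * Real.log 2 := by
          rw [Real.log_mul (by norm_num) (by positivity), hlog]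
      _ ≤ i + 1 := by nlinarith
  have h1 := Chebyshev.theta_ge (2 ^ i)
  rw [hsq, hlog] at h1
  have h2 := Chebyshev.theta_le_log4_mul_x (x := ((2 ^ (i - 2) : ℕ) : ℝ)) (by positivity)
  have h4 : Real.log 4 = 2 * Real.log 2 := by
    rw [show (4 : ℝ) = 2 ^ 2 by norm_num, Real.log_pow]
    norm_num
  have h5 : ((2 ^ (i - 2) : ℕ) : ℝ) * 4 = E * E := by
    rw [← hEE]
    have : 2 ^ (i - 2) * 4 = 2 ^ i := by
      rw [show (4 : ℕ) = 2 ^ 2 by norm_num, ← pow_add]
      congr 1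
      omega
    exact_mod_cast this
  -- the difference
  have h3 : Chebyshev.theta ((2 ^ i : ℕ) : ℝ) - Chebyshev.theta ((2 ^ (i - 2) : ℕ) : ℝ) ≤
      (Bp i).card * (i * Real.log 2) := by
    rw [Chebyshev.theta_eq_sum_Icc, Chebyshev.theta_eq_sum_Icc, Nat.floor_natCast, Nat.floor_natCast]
    have hsub : (Icc 0 (2 ^ (i - 2))).filter Nat.Prime ⊆ (Icc 0 (2 ^ i)).filter Nat.Prime := by
      apply filter_subset_filter
      apply Icc_subset_Icc_right
      exact Nat.pow_le_pow_right (by norm_num) (by omega)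
    rw [← sum_sdiff hsub, add_sub_cancel_right]
    have h6 : ((Icc 0 (2 ^ i)).filter Nat.Prime) \ ((Icc 0 (2 ^ (i - 2))).filter Nat.Prime) ⊆ Bp i := by
      intro p hp
      rw [Finset.mem_sdiff, mem_filter, mem_filter, mem_Icc, mem_Icc] at hp
      rw [mem_Bp]
      refine ⟨?_, hp.1.1.2, hp.1.2⟩
      by_contra hcon
      exact hp.2 ⟨⟨Nat.zero_le _, not_lt.1 hcon⟩, hp.1.2⟩
    calc ∑ p ∈ ((Icc 0 (2 ^ i)).filter Nat.Prime) \ ((Icc 0 (2 ^ (i - 2))).filter Nat.Prime), Real.log p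
        ≤ ∑ p ∈ Bp i, Real.log p := by
          apply sum_le_sum_of_subset_of_nonneg h6
          intro p hp _
          exact Real.log_nonneg (by exact_mod_cast (mem_Bp.1 hp).2.2.one_le)
      _ ≤ ∑ _p ∈ Bp i, (i * Real.log 2) := by
          apply sum_le_sum
          intro p hp
          rw [mem_Bp] at hp
          rw [← hlog]
          apply Real.log_le_log (by exact_mod_cast hp.2.2.pos)
          exact_mod_cast hp.2.1
      _ = (Bp i).card * (i * Real.log 2) := by rw [sum_const, nsmul_eq_mul]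
  rw [h4] at h2
  have h7 : E * E * Real.log 2 - (i + 1) - 2 * E * (i * Real.log 2) - 2 * Real.log 2 * (E * E / 4) ≤
      (Bp i).card * (i * Real.log 2) := by
    have h8 : 2 * Real.log 2 * ((2 ^ (i - 2) : ℕ) : ℝ) = 2 * Real.log 2 * (E * E / 4) := by
      rw [← h5]
      ring
    rw [h8] at h2
    rw [hEE] at h1 hlog1
    rw [hEE] at h3
    linarith
  have hi0 : 0 < (i : ℝ) * Real.log 2 := by positivity
  by_contra hcon
  push Not at hcon
  have h9 : ((Bp i).card : ℝ) * (i * Real.log 2) < E * (i * Real.log 2) := mul_lt_mul_of_pos_right hcon hi0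
  have h10 : (i : ℝ) * 100 ≤ E := by linarith
  have h11 : (i : ℝ) * Real.log 2 ≤ E * Real.log 2 / 100 := by nlinarith
  have h12 : E * (i * Real.log 2) ≤ E * (E * Real.log 2 / 100) := mul_le_mul_of_nonneg_left h11 hE0.le
  have h13 : (i : ℝ) + 1 ≤ E * E * Real.log 2 / 100 := by nlinarith
  nlinarith

end Pool.Agent.H563.UQ
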