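import Mathlib

/-!
# A choice at all scales, for infinitely many conditions at the same time
-/

set_option autoImplicit false

namespace Pool.Agent.H563.UQ

open Finset
open scoped Classical

/-- One more element: the weighted exponential sum decreases by the factor `1 - δ / 4`. -/
lemma step {ι : Type*} (B S : Finset ℕ) (M : Finset ι) (R : ι → ℕ → Prop) (v : ι → ℝ) (δ : ℝ) (hδ : 0 < δ)
    (hδ1 : δ ≤ 1) (hv : ∀ x ∈ M, 0 ≤ v x) (hB : 0 < B.card) (hS : (S.card : ℝ) ≤ δ / 2 * B.card)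
    (hR : ∀ x ∈ M, δ * B.card ≤ ((B.filter (R x)).card : ℝ)) :
    ∃ p ∈ B, ∑ x ∈ M, v x * (1 / 2 : ℝ) ^ ((insert p S).filter (R x)).card ≤
      (1 - δ / 4) * ∑ x ∈ M, v x * (1 / 2 : ℝ) ^ (S.filter (R x)).card := by
  have hBpos : (0 : ℝ) < B.card := by exact_mod_cast hB
  have hcard : B.card ≤ (B \ S).card + S.card := by
    have := card_le_card (show B ⊆ (B \ S) ∪ S by
      intro z hz
      by_cases hzS : z ∈ S
      · exact mem_union_right _ hzS
      · exact mem_union_left _ (Finset.mem_sdiff.2 ⟨hz, hzS⟩))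
    exact this.trans (card_union_le _ _)
  have hcard' : (B.card : ℝ) ≤ (B \ S).card + S.card := by exact_mod_cast hcard
  have hRpos : (0 : ℝ) < (B \ S).card := by nlinarith
  have hRle : ((B \ S).card : ℝ) ≤ B.card := by exact_mod_cast card_le_card sdiff_subset
  have hRne : (B \ S).Nonempty := by
    rw [← card_pos]
    exact_mod_cast hRpos
  have key : ∑ p ∈ B \ S, ∑ x ∈ M, v x * (1 / 2 : ℝ) ^ ((insert p S).filter (R x)).card ≤
      ∑ _p ∈ B \ S, (1 - δ / 4) * ∑ x ∈ M, v x * (1 / 2 : ℝ) ^ (S.filter (R x)).card := by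
    rw [sum_comm, sum_const, nsmul_eq_mul]
    have h1 : ∀ x ∈ M, ∑ p ∈ B \ S, v x * (1 / 2 : ℝ) ^ ((insert p S).filter (R x)).card ≤
        (v x * (1 / 2 : ℝ) ^ (S.filter (R x)).card) * ((B \ S).card * (1 - δ / 4)) := by
      intro x hx
      have h2 : ∀ p ∈ B \ S, v x * (1 / 2 : ℝ) ^ ((insert p S).filter (R x)).card =
          (v x * (1 / 2 : ℝ) ^ (S.filter (R x)).card) * (1 - if R x p then 1 / 2 else 0) := by
        intro p hp
        rw [Finset.mem_sdiff] at hp
        by_cases hpH : R x p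
        · rw [filter_insert, if_pos hpH, card_insert_of_notMem (by simp [hp.2]), pow_succ, if_pos hpH]
          ring
        · rw [filter_insert, if_neg hpH, if_neg hpH]
          ring
      rw [sum_congr rfl h2, ← mul_sum]
      apply mul_le_mul_of_nonneg_left _ (mul_nonneg (hv x hx) (by positivity))
      rw [sum_sub_distrib, sum_const, nsmul_eq_mul, mul_one, ← sum_filter, sum_const, nsmul_eq_mul]
      have h4 : ((B.filter (R x)).card : ℝ) ≤ ((B \ S).filter (R x)).card + S.card := by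
        have h5 : (B.filter (R x)).card ≤ ((B \ S).filter (R x)).card + S.card := by
          have := card_le_card (show B.filter (R x) ⊆ ((B \ S).filter (R x)) ∪ S by
            intro z hz
            rw [mem_filter] at hz
            by_cases hzS : z ∈ S
            · exact mem_union_right _ hzS
            · exact mem_union_left _ (mem_filter.2 ⟨Finset.mem_sdiff.2 ⟨hz.1, hzS⟩, hz.2⟩))
          exact this.trans (card_union_le _ _)
        exact_mod_cast h5
      have h6 := hR x hx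
      have h7 : δ / 2 * ((B \ S).card : ℝ) ≤ ((B \ S).filter (R x)).card := by nlinarith
      nlinarith
    refine (sum_le_sum h1).trans ?_
    rw [← sum_mul]
    exact le_of_eq (by ring)
  obtain ⟨p, hp, hpv⟩ := exists_le_of_sum_le hRne key
  exact ⟨p, (Finset.mem_sdiff.1 hp).1, hpv⟩

/-- `k` more elements -/
lemma batch {ι : Type*} (B : Finset ℕ) (M : Finset ι) (R : ι → ℕ → Prop) (v : ι → ℝ) (δ : ℝ) (hδ : 0 < δ)
    (hδ1 : δ ≤ 1) (hv : ∀ x ∈ M, 0 ≤ v x) (hR : ∀ x ∈ M, δ * B.card ≤ ((B.filter (R x)).card : ℝ)) (k : ℕ) :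
    ∀ S : Finset ℕ, (k = 0 ∨ (0 < B.card ∧ (S.card : ℝ) + k ≤ δ / 2 * B.card)) →
    ∃ T ⊆ B, T.card ≤ k ∧ ∑ x ∈ M, v x * (1 / 2 : ℝ) ^ ((S ∪ T).filter (R x)).card ≤
      (1 - δ / 4) ^ k * ∑ x ∈ M, v x * (1 / 2 : ℝ) ^ (S.filter (R x)).card := by
  induction k with
  | zero =>
    intro S _
    refine ⟨∅, empty_subset _, by simp, ?_⟩
    rw [union_empty, pow_zero, one_mul]
  | succ k ih =>
    intro S hS
    have hS' : 0 < B.card ∧ (S.card : ℝ) + (k + 1) ≤ δ / 2 * B.card := by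
      rcases hS with h | h
      · omega
      · push_cast at h
        exact h
    obtain ⟨T, hT1, hT2, hT3⟩ := ih S (Or.inr ⟨hS'.1, by linarith [hS'.2]⟩)
    have hST : ((S ∪ T).card : ℝ) ≤ δ / 2 * B.card := by
      have h1 : ((S ∪ T).card : ℝ) ≤ S.card + T.card := by exact_mod_cast card_union_le S T
      have h2 : (T.card : ℝ) ≤ k := by exact_mod_cast hT2
      linarith [hS'.2]
    obtain ⟨p, hp, hp2⟩ := step B (S ∪ T) M R v δ hδ hδ1 hv hS'.1 hST hR
    refine ⟨insert p T, insert_subset hp hT1, (card_insert_le _ _).trans (by omega), ?_⟩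
    rw [union_insert, pow_succ]
    have h1 : 0 ≤ 1 - δ / 4 := by linarith
    calc ∑ x ∈ M, v x * (1 / 2 : ℝ) ^ ((insert p (S ∪ T)).filter (R x)).card
        ≤ (1 - δ / 4) * ∑ x ∈ M, v x * (1 / 2 : ℝ) ^ ((S ∪ T).filter (R x)).card := hp2
      _ ≤ (1 - δ / 4) * ((1 - δ / 4) ^ k * ∑ x ∈ M, v x * (1 / 2 : ℝ) ^ (S.filter (R x)).card) :=
          mul_le_mul_of_nonneg_left hT3 h1
      _ = _ := by ring

/-- the factor of `x` before the scale `i` -/
noncomputable def fac {ι : Type*} (d : ℕ → ℝ) (k : ℕ → ℕ) (Act : ℕ → Finset ι) (i : ℕ) (x : ι) : ℝ :=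
  ∏ i' ∈ (range i).filter (fun i' => x ∈ Act i'), (1 - d i' / 4) ^ k i'

lemma fac_succ {ι : Type*} (d : ℕ → ℝ) (k : ℕ → ℕ) (Act : ℕ → Finset ι) (i : ℕ) (x : ι) :
    fac d k Act (i + 1) x = fac d k Act i x * if x ∈ Act i then (1 - d i / 4) ^ k i else 1 := by
  unfold fac
  rw [range_add_one, filter_insert]
  by_cases h : x ∈ Act i
  · rw [if_pos h, if_pos h, prod_insert (by simp), mul_comm]
  · rw [if_neg h, if_neg h, mul_one]

lemma fac_pos {ι : Type*} {d : ℕ → ℝ} (hd : ∀ i, 0 < d i ∧ d i ≤ 1) (k : ℕ → ℕ) (Act : ℕ → Finset ι) (i : ℕ) (x : ι) :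
    0 < fac d k Act i x := by
  unfold fac
  apply Finset.prod_pos
  intro i' _
  have := hd i'
  apply pow_pos
  linarith

/-- **The choice at all scales.** -/
theorem scales {ι : Type*} (B : ℕ → Finset ℕ) (d : ℕ → ℝ) (k : ℕ → ℕ) (Act : ℕ → Finset ι) (w : ι → ℝ)
    (R : ι → ℕ → Prop) (hd : ∀ i, 0 < d i ∧ d i ≤ 1) (hw : ∀ x, 0 ≤ w x) (hw1 : ∀ F : Finset ι, ∑ x ∈ F, w x ≤ 1)
    (hk : ∀ i, k i = 0 ∨ (0 < (B i).card ∧ (∑ i' ∈ range (i + 1), (k i' : ℝ)) ≤ d i / 2 * (B i).card))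
    (hR : ∀ i, ∀ x ∈ Act i, d i * (B i).card ≤ (((B i).filter (R x)).card : ℝ)) :
    ∃ T : ℕ → Finset ℕ, (∀ i, T i ⊆ B i ∧ (T i).card ≤ k i) ∧
      ∀ i (F : Finset ι), ∑ x ∈ F, w x * (fac d k Act i x)⁻¹ *
        (1 / 2 : ℝ) ^ (((range i).biUnion T).filter (R x)).card ≤ 1 := by
  have hex : ∀ i (S : Finset ℕ), (S.card : ℝ) ≤ ∑ i' ∈ range i, (k i' : ℝ) → ∃ T ⊆ B i, T.card ≤ k i ∧
      ∑ x ∈ Act i, (w x * (fac d k Act i x)⁻¹) * (1 / 2 : ℝ) ^ ((S ∪ T).filter (R x)).card ≤
        (1 - d i / 4) ^ k i * ∑ x ∈ Act i, (w x * (fac d k Act i x)⁻¹) * (1 / 2 : ℝ) ^ (S.filter (R x)).card := by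
    intro i S hS
    apply batch (B i) (Act i) R _ (d i) (hd i).1 (hd i).2 _ (hR i) (k i) S
    · rcases hk i with h | h
      · exact Or.inl h
      · right
        refine ⟨h.1, ?_⟩
        have h1 := h.2
        rw [sum_range_succ] at h1
        linarith
    · intro x _
      exact mul_nonneg (hw x) (inv_nonneg.2 (fac_pos hd k Act i x).le)
  choose! f hf1 hf2 hf3 using hex
  -- the recursion
  obtain ⟨S, hS⟩ : ∃ S : ℕ → Finset ℕ, S = fun i => Nat.rec ∅ (fun i S => S ∪ f i S) i := ⟨_, rfl⟩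
  have hS0 : S 0 = ∅ := by rw [hS]; rfl
  have hS1 : ∀ i, S (i + 1) = S i ∪ f i (S i) := by
    intro i
    rw [hS]
  have hSc : ∀ i, ((S i).card : ℝ) ≤ ∑ i' ∈ range i, (k i' : ℝ) := by
    intro i
    induction i with
    | zero => rw [hS0]; simp
    | succ i ih =>
      rw [hS1, sum_range_succ]
      have h1 : ((S i ∪ f i (S i)).card : ℝ) ≤ (S i).card + (f i (S i)).card := by
        exact_mod_cast card_union_le _ _
      have h2 : ((f i (S i)).card : ℝ) ≤ k i := by exact_mod_cast hf2 i (S i) ih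
      linarith
  have hSu : ∀ i, S i = (range i).biUnion (fun i => f i (S i)) := by
    intro i
    induction i with
    | zero => rw [hS0]; simp
    | succ i ih =>
      rw [hS1, range_add_one, biUnion_insert, ← ih, union_comm]
  refine ⟨fun i => f i (S i), fun i => ⟨hf1 i (S i) (hSc i), hf2 i (S i) (hSc i)⟩, ?_⟩
  intro i
  rw [← hSu]
  induction i with
  | zero =>
    intro F
    refine le_trans (le_of_eq ?_) (hw1 F)
    apply sum_congr rfl
    intro x _
    rw [hS0]
    simp [fac]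
  | succ i ih =>
    intro F
    have hnn : ∀ x, 0 ≤ w x * (fac d k Act (i + 1) x)⁻¹ *
        (1 / 2 : ℝ) ^ ((S (i + 1)).filter (R x)).card := by
      intro x
      have h1 := hw x
      have h2 := inv_nonneg.2 (fac_pos hd k Act (i + 1) x).le
      positivity
    refine (sum_le_sum_of_subset_of_nonneg (subset_union_left (s₂ := Act i)) (fun x _ _ => hnn x)).trans ?_
    refine le_trans ?_ (ih (F ∪ Act i))
    have hsub : Act i ⊆ F ∪ Act i := subset_union_right
    rw [← sum_sdiff hsub, ← sum_sdiff hsub (f := fun x => w x * (fac d k Act i x)⁻¹ *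
        (1 / 2 : ℝ) ^ ((S i).filter (R x)).card)]
    apply add_le_add
    · apply sum_le_sum
      intro x hx
      rw [Finset.mem_sdiff] at hx
      rw [fac_succ, if_neg hx.2, mul_one]
      apply mul_le_mul_of_nonneg_left _ (mul_nonneg (hw x) (inv_nonneg.2 (fac_pos hd k Act i x).le))
      apply pow_le_pow_of_le_one (by norm_num) (by norm_num)
      apply card_le_card
      apply filter_subset_filter
      rw [hS1]
      exact subset_union_left
    · have h1 : ∀ x ∈ Act i, w x * (fac d k Act (i + 1) x)⁻¹ * (1 / 2 : ℝ) ^ ((S (i + 1)).filter (R x)).card =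
          ((1 - d i / 4) ^ k i)⁻¹ * ((w x * (fac d k Act i x)⁻¹) *
            (1 / 2 : ℝ) ^ ((S i ∪ f i (S i)).filter (R x)).card) := by
        intro x hx
        rw [fac_succ, if_pos hx, hS1, mul_inv]
        ring
      have hρ : 0 < (1 - d i / 4) ^ k i := by
        apply pow_pos
        linarith [(hd i).2]
      rw [sum_congr rfl h1, ← mul_sum, inv_mul_le_iff₀ hρ]
      exact hf3 i (S i) (hSc i)

end Pool.Agent.H563.UQ
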