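import Pool.Agent.H563.UQ.Mon
import Pool.Agent.H563.UQ.Bp
import Pool.Agent.H563.UQ.Sel

/-!
# Many representations in every block
-/

set_option autoImplicit false

namespace Pool.Agent.H563.UQ

open Finset Filter Topology
open scoped Classical
open Pool.Agent.H561.PG

/-- the proportion in the block `i` -/
noncomputable def dd (C₁ i : ℕ) : ℝ := 1 / (64 * ((i : ℝ) + 1) * (2 * Real.log ((i : ℝ) + 2)) ^ (C₁ + 1))

lemma log_ge (i : ℕ) : 1 ≤ 2 * Real.log ((i : ℝ) + 2) := by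
  have h1 : Real.log 2 ≤ Real.log ((i : ℝ) + 2) := Real.log_le_log (by norm_num) (by
    have : (0 : ℝ) ≤ i := by positivity
    linarith)
  have := Real.log_two_gt_d9
  linarith

lemma dd_pos (C₁ i : ℕ) : 0 < dd C₁ i ∧ dd C₁ i ≤ 1 := by
  have h1 := log_ge i
  have h2 : 1 ≤ (2 * Real.log ((i : ℝ) + 2)) ^ (C₁ + 1) := one_le_pow₀ h1
  have hi : (0 : ℝ) ≤ i := by positivity
  have h3 : 1 ≤ 64 * ((i : ℝ) + 1) * (2 * Real.log ((i : ℝ) + 2)) ^ (C₁ + 1) := by nlinarith
  unfold dd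
  constructor
  · positivity
  · rw [div_le_one (by linarith)]
    exact h3

/-- `n = f(q) + p` with primes `q`, `p` -/
def Rq (b c : ℤ) (n q : ℕ) : Prop := q.Prime ∧ ∃ p : ℕ, p.Prime ∧ (n : ℤ) = ((q : ℤ) ^ 2 + b * q + c) + p

/-- many representations in the block -/
lemma dy (b c : ℤ) (D C₁ : ℕ) : ∃ J : ℕ, ∀ j : ℕ, J ≤ j → ∀ n : ℕ, 2 ^ j < n → n ≤ 2 ^ (j + 1) →
    HoldL true 1 b (1 / 16) (1 / 8) 2 D C₁ (c - n) → ∀ i : ℕ, j + 1 ≤ 4 * i → 5 * i ≤ 2 * j →
    dd C₁ i * (Bp i).card ≤ (((Bp i).filter (Rq b c n)).card : ℝ) := by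
  obtain ⟨n₀, hn₀⟩ := monL b c (1 / 8) (1 / 2) (by norm_num) (by norm_num) (by norm_num) 1 D C₁
  obtain ⟨n₁, hn₁⟩ := ev_cmp b c (1 / 8) 1 (by norm_num) (by norm_num) 1 D
  -- `(log n) ^ (D + 3) ≤ 2 ^ (j / 5)`
  have h0 := (isLittleO_pow_exp_pos_mul_atTop (k := D + 3) (b := Real.log 2 / 5) (by
    have := Real.log_two_gt_d9
    positivity)).bound (show (0 : ℝ) < 1 / 2 ^ (D + 3) by positivity)
  have tN : Tendsto (fun N : ℕ => (N : ℝ)) atTop atTop := tendsto_natCast_atTop_atTop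
  obtain ⟨J₀, hJ₀⟩ := eventually_atTop.1 (tN.eventually h0)
  refine ⟨n₀ + n₁ + J₀ + 20, fun j hj n hn1 hn2 hH i hi1 hi2 => ?_⟩
  have hj2 : j < 2 ^ j := Nat.lt_two_pow_self
  have hnn : n₀ ≤ n := by omega
  obtain ⟨S, hS0, hSlow, hform⟩ := hn₀ n hnn (by
    have e1 : (1 : ℝ) / 8 / 2 = 1 / 16 := by norm_num
    have e2 : (1 : ℝ) / 2 / 4 = 1 / 8 := by norm_num
    rw [e1, e2]
    exact hH)
  obtain ⟨k1, k2, k3, _⟩ := hn₁ n (by omega)
  have hi5 : 5 ≤ i := by omega
  have hi5' : (5 : ℝ) ≤ i := by exact_mod_cast hi5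
  have hl2 := Real.log_two_gt_d9
  have hl2' := Real.log_two_lt_d9
  have hn0 : (0 : ℝ) < n := by exact_mod_cast (by omega : 0 < n)
  have hnr : (n : ℝ) ≤ 2 ^ (j + 1) := by exact_mod_cast hn2
  have hnl : (2 : ℝ) ^ j < n := by exact_mod_cast hn1
  have hj0 : (20 : ℝ) ≤ j := by exact_mod_cast (by omega : 20 ≤ j)
  have hij : ((j : ℝ) + 1) ≤ 4 * i := by exact_mod_cast hi1
  have hij2 : 5 * (i : ℝ) ≤ 2 * j := by exact_mod_cast hi2
  have hlogn : Real.log n ≤ (j + 1) * Real.log 2 := by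
    have := Real.log_le_log hn0 hnr
    rw [Real.log_pow] at this
    push_cast at this
    exact this
  have hlogn' : (j : ℝ) * Real.log 2 ≤ Real.log n := by
    have := Real.log_le_log (by positivity) hnl.le
    rw [Real.log_pow] at this
    exact this
  have hlogn4 : Real.log n ≤ 4 * i := by nlinarith
  have hlogn0 : 2 ≤ Real.log n := by nlinarith
  -- the window
  obtain ⟨v, hv⟩ : ∃ v : ℝ, v = (2 : ℝ) ^ i := ⟨_, rfl⟩
  obtain ⟨u, hu⟩ : ∃ u : ℝ, u = (2 : ℝ) ^ (i - 2) := ⟨_, rfl⟩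
  have huv : 4 * u = v := by
    rw [hu, hv, show (4 : ℝ) = 2 ^ 2 by norm_num, ← pow_add]
    congr 1
    omega
  have hu0 : 0 < u := by rw [hu]; positivity
  have hfu : ⌊u⌋₊ = 2 ^ (i - 2) := by
    rw [hu]
    exact_mod_cast Nat.floor_natCast (R := ℝ) (2 ^ (i - 2))
  have hfv : ⌊v⌋₊ = 2 ^ i := by
    rw [hv]
    exact_mod_cast Nat.floor_natCast (R := ℝ) (2 ^ i)
  have c1 : (n : ℝ) ^ ((1 : ℝ) / 8 + 1 / 8) ≤ v := by
    have e1 : (1 : ℝ) / 8 + 1 / 8 = 1 / 4 := by norm_num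
    rw [e1, hv]
    calc (n : ℝ) ^ ((1 : ℝ) / 4) ≤ ((2 : ℝ) ^ (j + 1)) ^ ((1 : ℝ) / 4) :=
          Real.rpow_le_rpow hn0.le hnr (by norm_num)
      _ = (2 : ℝ) ^ (((j : ℝ) + 1) * (1 / 4)) := by
          rw [← Real.rpow_natCast, ← Real.rpow_mul (by norm_num)]
          push_cast
          rfl
      _ ≤ (2 : ℝ) ^ (i : ℝ) := Real.rpow_le_rpow_of_exponent_le (by norm_num) (by linarith)
      _ = (2 : ℝ) ^ i := Real.rpow_natCast _ _
  have c2 : v ^ 2 * Real.log n ^ (D + 3) ≤ n := by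
    have h1 := hJ₀ j (by omega)
    rw [Real.norm_of_nonneg (by positivity), Real.norm_of_nonneg (Real.exp_pos _).le] at h1
    have h2 : Real.log n ^ (D + 3) ≤ Real.exp (Real.log 2 / 5 * j) := by
      calc Real.log n ^ (D + 3) ≤ (2 * (j : ℝ)) ^ (D + 3) := by
            apply pow_le_pow_left₀ (by linarith)
            nlinarith
        _ = 2 ^ (D + 3) * (j : ℝ) ^ (D + 3) := mul_pow _ _ _
        _ ≤ 2 ^ (D + 3) * (1 / 2 ^ (D + 3) * Real.exp (Real.log 2 / 5 * j)) :=
            mul_le_mul_of_nonneg_left h1 (by positivity)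
        _ = _ := by
            field_simp
    have h3 : v ^ 2 = Real.exp (2 * i * Real.log 2) := by
      rw [hv, ← pow_mul, ← Real.exp_log (show (0 : ℝ) < 2 ^ (i * 2) by positivity), Real.log_pow]
      congr 1
      push_cast
      ring
    have h4 : (2 : ℝ) ^ j = Real.exp (j * Real.log 2) := by
      rw [← Real.exp_log (show (0 : ℝ) < 2 ^ j by positivity), Real.log_pow]
    calc v ^ 2 * Real.log n ^ (D + 3) ≤ Real.exp (2 * i * Real.log 2) * Real.exp (Real.log 2 / 5 * j) := by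
          rw [h3]
          exact mul_le_mul_of_nonneg_left h2 (Real.exp_pos _).le
      _ = Real.exp (2 * i * Real.log 2 + Real.log 2 / 5 * j) := (Real.exp_add _ _).symm
      _ ≤ Real.exp (j * Real.log 2) := Real.exp_le_exp.2 (by nlinarith)
      _ = (2 : ℝ) ^ j := h4.symm
      _ ≤ n := hnl.le
  have c3 : v / Real.log n ^ 1 ≤ v - u := by
    rw [pow_one, div_le_iff₀ (by linarith)]
    nlinarith
  have hf := hform u v hu0.le c1 c2 c3
  rw [abs_le] at hf
  have hcnt : (cntn b c n u v : ℝ) = (((Bp i).filter (Rq b c n)).card : ℝ) := by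
    unfold cntn
    rw [hfu, hfv]
    congr 2
    ext q
    rw [mem_filter, mem_filter, mem_Bp, mem_Ioc]
    unfold Rq
    tauto
  rw [hcnt] at hf
  have hlogv : Real.log v = i * Real.log 2 := by rw [hv, Real.log_pow]
  have hT : S * (v - u) / (Real.log v * Real.log n) ≥ 3 / 16 * (S * v) / (i * i) := by
    have h1 : 0 < Real.log v * Real.log n := by
      rw [hlogv]
      positivity
    have h2 : Real.log v * Real.log n ≤ 4 * (i * i) := by
      rw [hlogv]
      calc (i : ℝ) * Real.log 2 * Real.log n ≤ i * 1 * (4 * i) := by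
            apply mul_le_mul _ hlogn4 (by linarith) (by positivity)
            apply mul_le_mul_of_nonneg_left _ (by positivity)
            linarith
        _ = 4 * (i * i) := by ring
    have h3 : S * (v - u) = 3 / 4 * (S * v) := by
      rw [← huv]
      ring
    rw [h3, ge_iff_le, div_le_div_iff₀ (by positivity) h1]
    have h4 : 0 ≤ S * v := by
      have : 0 < v := by linarith
      positivity
    nlinarith
  have hcount : 3 / 32 * (S * v) / (i * i) ≤ (((Bp i).filter (Rq b c n)).card : ℝ) := by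
    have h1 : 3 / 32 * (S * v) / ((i : ℝ) * i) = 1 / 2 * (3 / 16 * (S * v) / (i * i)) := by ring
    rw [h1]
    linarith [hf.1]
  -- the singular series
  have hSl : 1 / (2 * Real.log ((i : ℝ) + 2)) ^ (C₁ + 1) ≤ S := by
    refine le_trans ?_ hSlow
    have hM : (((c - n).natAbs : ℕ) : ℝ) ≤ 2 ^ (j + 2) := by
      refine k3.trans ?_
      rw [pow_succ]
      linarith
    have hM1 : (2 : ℝ) ^ j / 2 ≤ (((c - n).natAbs : ℕ) : ℝ) := by linarith
    have hM0 : (0 : ℝ) < (((c - n).natAbs : ℕ) : ℝ) := lt_of_lt_of_le (by positivity) hM1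
    have h1 : Real.log (((c - n).natAbs : ℕ) : ℝ) ≤ (j + 2) * Real.log 2 := by
      have := Real.log_le_log hM0 hM
      rw [Real.log_pow] at this
      push_cast at this
      exact this
    have h2 : 3 ≤ Real.log (((c - n).natAbs : ℕ) : ℝ) := by
      have := Real.log_le_log (by positivity) hM1
      rw [Real.log_div (by positivity) (by norm_num), Real.log_pow] at this
      nlinarith
    have h3 : Real.log (Real.log (((c - n).natAbs : ℕ) : ℝ)) ≤ 2 * Real.log ((i : ℝ) + 2) := by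
      have h4 : Real.log (((c - n).natAbs : ℕ) : ℝ) ≤ ((i : ℝ) + 2) ^ 2 := by nlinarith
      have h5 := Real.log_le_log (by linarith) h4
      rw [Real.log_pow] at h5
      push_cast at h5
      exact h5
    have h4 : 0 < Real.log (Real.log (((c - n).natAbs : ℕ) : ℝ)) := Real.log_pos (by linarith)
    apply one_div_le_one_div_of_le (by positivity)
    exact pow_le_pow_left₀ h4.le h3 _
  have hup := Bp_up i (by omega)
  have hup' : ((Bp i).card : ℝ) * i ≤ 4 * v := by
    rw [hv]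
    exact_mod_cast hup
  refine le_trans ?_ hcount
  obtain ⟨P, hP⟩ : ∃ P, P = (2 * Real.log ((i : ℝ) + 2)) ^ (C₁ + 1) := ⟨_, rfl⟩
  have hP0 : 0 < P := by
    rw [hP]
    have := log_ge i
    positivity
  unfold dd
  rw [← hP] at hSl ⊢
  have hv0 : 0 < v := by linarith
  have hii : (0 : ℝ) < i * i := by positivity
  rw [le_div_iff₀ hii]
  have h1 : 1 ≤ S * P := by
    rw [div_le_iff₀ hP0] at hSl
    exact hSl
  have h2 : 1 / (64 * ((i : ℝ) + 1) * P) * (Bp i).card * (i * i) ≤ 1 / (64 * P) * (4 * v) := by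
    have h3 : 1 / (64 * ((i : ℝ) + 1) * P) * (Bp i).card * (i * i) =
        (1 / (64 * P)) * ((Bp i).card * i) * (i / (i + 1)) := by
      field_simp
    rw [h3]
    have h4 : (i : ℝ) / (i + 1) ≤ 1 := by
      rw [div_le_one (by positivity)]
      linarith
    calc (1 / (64 * P)) * ((Bp i).card * i) * ((i : ℝ) / (i + 1)) ≤ (1 / (64 * P)) * ((Bp i).card * i) * 1 :=
          mul_le_mul_of_nonneg_left h4 (by positivity)
      _ ≤ _ := by
          rw [mul_one]
          exact mul_le_mul_of_nonneg_left hup' (by positivity)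
  refine h2.trans ?_
  have h5 : 1 / (64 * P) * (4 * v) = v / 16 * (1 / P) := by
    field_simp
    norm_num
  rw [h5]
  have h6 : 1 / P ≤ S := hSl
  calc v / 16 * (1 / P) ≤ v / 16 * S := mul_le_mul_of_nonneg_left h6 (by positivity)
    _ ≤ 3 / 32 * (S * v) := by nlinarith [mul_pos hS0 hv0]

end Pool.Agent.H563.UQ
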