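import Pool.Agent.H563.UQ.Wt

/-!
# The universal thin set of primes
-/

set_option autoImplicit false

namespace Pool.Agent.H563.UQ

open Finset Filter Topology
open scoped Classical

/-- the `m`-th pair of integers -/
noncomputable def par (m : ℕ) : ℤ × ℤ := ((Encodable.decode m : Option (ℤ × ℤ))).getD (0, 0)

lemma par_encode (b c : ℤ) : par (Encodable.encode (b, c)) = (b, c) := by
  unfold par
  rw [Encodable.encodek]
  rfl

/-- the relation -/
noncomputable def RR (x : ℕ × ℕ) (q : ℕ) : Prop := Rq (par x.1).1 (par x.1).2 x.2 q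

/-- the active pairs -/
noncomputable def Act (C₁ i : ℕ) : Finset (ℕ × ℕ) :=
  ((range (i + 1)) ×ˢ (range (2 ^ (4 * i) + 1))).filter
    (fun x => dd C₁ i * (Bp i).card ≤ (((Bp i).filter (RR x)).card : ℝ))

/-- the set -/
theorem sets (C₁ : ℕ) : ∃ (i₀ : ℕ) (T : ℕ → Finset ℕ), (∀ i, T i ⊆ Bp i ∧ (T i).card ≤ kk C₁ i₀ i) ∧
    ∀ i (F : Finset (ℕ × ℕ)), ∑ x ∈ F, ww x * (fac (dd C₁) (kk C₁ i₀) (Act C₁) i x)⁻¹ *
      (1 / 2 : ℝ) ^ (((range i).biUnion T).filter (RR x)).card ≤ 1 := by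
  obtain ⟨i₀, hi₀⟩ := hkk C₁
  obtain ⟨T, h1, h2⟩ := scales Bp (dd C₁) (kk C₁ i₀) (Act C₁) ww RR (dd_pos C₁) ww_nonneg sum_ww hi₀ (by
    intro i x hx
    unfold Act at hx
    rw [mem_filter] at hx
    exact hx.2)
  exact ⟨i₀, T, h1, h2⟩

/-- the product over the active blocks is small -/
lemma fac_small (C₁ i₀ A : ℕ) (m : ℕ) : ∀ᶠ j : ℕ in atTop, ∀ n : ℕ, n ≤ 2 ^ (j + 1) →
    (∀ i : ℕ, j + 1 ≤ 4 * i → 5 * i ≤ 2 * j → dd C₁ i * (Bp i).card ≤ (((Bp i).filter (RR (m, n))).card : ℝ)) →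
    fac (dd C₁) (kk C₁ i₀) (Act C₁) j (m, n) ≤ 1 / (j : ℝ) ^ A := by
  obtain ⟨κ, hκ⟩ : ∃ κ : ℝ, κ = 1 / (20480 * 4 ^ (C₁ + 1)) := ⟨_, rfl⟩
  have hκ0 : 0 < κ := by rw [hκ]; positivity
  have tL : Tendsto (fun N : ℕ => Real.log (N : ℝ)) atTop atTop :=
    Real.tendsto_log_atTop.comp tendsto_natCast_atTop_atTop
  filter_upwards [eventually_ge_atTop (4 * i₀ + 4 * m + 40), tL.eventually_ge_atTop (max 1 (A / κ))]
    with j hj hL n hn hact
  have hL1 : 1 ≤ Real.log (j : ℝ) := (le_max_left _ _).trans hL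
  have hLA : A / κ ≤ Real.log (j : ℝ) := (le_max_right _ _).trans hL
  have hj40 : (40 : ℝ) ≤ j := by exact_mod_cast (by omega : 40 ≤ j)
  obtain ⟨I, hI⟩ : ∃ I : Finset ℕ, I = Icc ((j + 4) / 4) (2 * j / 5) := ⟨_, rfl⟩
  have hsub : I ⊆ (range j).filter (fun i => (m, n) ∈ Act C₁ i) := by
    intro i hi
    rw [hI, mem_Icc] at hi
    have h1 : j + 1 ≤ 4 * i := by omega
    have h2 : 5 * i ≤ 2 * j := by omega
    rw [mem_filter, mem_range]
    refine ⟨by omega, ?_⟩
    unfold Act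
    rw [mem_filter, mem_product, mem_range, mem_range]
    refine ⟨⟨?_, ?_⟩, hact i h1 h2⟩
    · show m < i + 1
      omega
    · show n < 2 ^ (4 * i) + 1
      have : 2 ^ (j + 1) ≤ 2 ^ (4 * i) := Nat.pow_le_pow_right (by norm_num) h1
      omega
  have hfac : fac (dd C₁) (kk C₁ i₀) (Act C₁) j (m, n) ≤ ∏ i ∈ I, (1 - dd C₁ i / 4) ^ kk C₁ i₀ i := by
    have key : ∀ P : Finset ℕ, I ⊆ P → ∏ i ∈ P, (1 - dd C₁ i / 4) ^ kk C₁ i₀ i ≤
        ∏ i ∈ I, (1 - dd C₁ i / 4) ^ kk C₁ i₀ i := by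
      intro P hP
      rw [← prod_sdiff hP]
      apply mul_le_of_le_one_left
      · apply Finset.prod_nonneg
        intro i _
        have := dd_pos C₁ i
        apply pow_nonneg
        linarith
      · apply Finset.prod_le_one
        · intro i _
          have := dd_pos C₁ i
          apply pow_nonneg
          linarith
        · intro i _
          have := dd_pos C₁ i
          apply pow_le_one₀ <;> linarith
    unfold fac
    apply key
    intro i hi
    have := hsub hi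
    simp only [mem_filter] at this ⊢
    exact this
  refine hfac.trans ?_
  have h1 : ∏ i ∈ I, (1 - dd C₁ i / 4) ^ kk C₁ i₀ i ≤ Real.exp (-∑ i ∈ I, (kk C₁ i₀ i : ℝ) * dd C₁ i / 4) := by
    rw [← sum_neg_distrib, Real.exp_sum]
    apply Finset.prod_le_prod
    · intro i _
      have := dd_pos C₁ i
      apply pow_nonneg
      linarith
    · intro i _
      have h2 := dd_pos C₁ i
      have h3 : 1 - dd C₁ i / 4 ≤ Real.exp (-(dd C₁ i / 4)) := by
        have := Real.add_one_le_exp (-(dd C₁ i / 4))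
        linarith
      calc (1 - dd C₁ i / 4) ^ kk C₁ i₀ i ≤ Real.exp (-(dd C₁ i / 4)) ^ kk C₁ i₀ i :=
            pow_le_pow_left₀ (by linarith) h3 _
        _ = Real.exp (-((kk C₁ i₀ i : ℝ) * dd C₁ i / 4)) := by
            rw [← Real.exp_nat_mul]
            congr 1
            ring
  refine h1.trans ?_
  have h2 : κ * Real.log j ^ 3 ≤ ∑ i ∈ I, (kk C₁ i₀ i : ℝ) * dd C₁ i / 4 := by
    have h3 : ∀ i ∈ I, Real.log j ^ 3 / (2048 * 4 ^ (C₁ + 1) * j) ≤ (kk C₁ i₀ i : ℝ) * dd C₁ i / 4 := by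
      intro i hi
      rw [hI, mem_Icc] at hi
      have g1 : j + 1 ≤ 4 * i := by omega
      have g2 : 5 * i ≤ 2 * j := by omega
      have g3 : i₀ ≤ i := by omega
      have g1' : (j : ℝ) + 1 ≤ 4 * i := by exact_mod_cast g1
      have g2' : 5 * (i : ℝ) ≤ 2 * j := by exact_mod_cast g2
      have hi10 : (10 : ℝ) ≤ i := by linarith
      have hk : Real.log i ^ (C₁ + 4) ≤ (kk C₁ i₀ i : ℝ) := by
        unfold kk
        rw [if_neg (by omega)]
        exact Nat.le_ceil _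
      have hli : Real.log j / 2 ≤ Real.log i := by
        have h4 : (j : ℝ) ≤ i * i := by nlinarith
        have h5 := Real.log_le_log (by linarith) h4
        rw [Real.log_mul (by linarith) (by linarith)] at h5
        linarith
      have hli0 : 0 < Real.log (i : ℝ) := by linarith
      have hl2 : Real.log ((i : ℝ) + 2) ≤ 2 * Real.log i := by
        have h4 : (i : ℝ) + 2 ≤ i * i := by nlinarith
        have h5 := Real.log_le_log (by linarith) h4
        rw [Real.log_mul (by linarith) (by linarith)] at h5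
        linarith
      have hg := log_ge i
      have hd : 1 / (64 * j * (4 ^ (C₁ + 1) * Real.log i ^ (C₁ + 1))) ≤ dd C₁ i := by
        unfold dd
        apply one_div_le_one_div_of_le (by positivity)
        have h6 : (2 * Real.log ((i : ℝ) + 2)) ^ (C₁ + 1) ≤ 4 ^ (C₁ + 1) * Real.log i ^ (C₁ + 1) := by
          rw [← mul_pow]
          apply pow_le_pow_left₀ (by linarith)
          linarith
        apply mul_le_mul _ h6 (by positivity) (by positivity)
        linarith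
      calc Real.log j ^ 3 / (2048 * 4 ^ (C₁ + 1) * j) = (Real.log j / 2) ^ 3 / (256 * 4 ^ (C₁ + 1) * j) := by
            rw [div_pow]
            field_simp
            norm_num
        _ ≤ Real.log i ^ 3 / (256 * 4 ^ (C₁ + 1) * j) := by
            apply div_le_div_of_nonneg_right _ (by positivity)
            exact pow_le_pow_left₀ (by linarith) hli 3
        _ = Real.log i ^ (C₁ + 4) * (1 / (64 * j * (4 ^ (C₁ + 1) * Real.log i ^ (C₁ + 1)))) / 4 := by
            rw [show C₁ + 4 = (C₁ + 1) + 3 by ring, pow_add (Real.log (i : ℝ)) (C₁ + 1) 3]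
            field_simp
            norm_num
        _ ≤ (kk C₁ i₀ i : ℝ) * dd C₁ i / 4 := by
            apply div_le_div_of_nonneg_right _ (by norm_num)
            exact mul_le_mul hk hd (by positivity) (by positivity)
    have h4 := sum_le_sum h3
    rw [sum_const, nsmul_eq_mul] at h4
    refine le_trans ?_ h4
    have hcard : (j : ℝ) / 10 ≤ I.card := by
      rw [hI, Nat.card_Icc]
      have h5 : j ≤ 10 * (2 * j / 5 + 1 - (j + 4) / 4) := by omega
      have h6 : (j : ℝ) ≤ 10 * ((2 * j / 5 + 1 - (j + 4) / 4 : ℕ) : ℝ) := by exact_mod_cast h5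
      linarith
    calc κ * Real.log j ^ 3 = (j : ℝ) / 10 * (Real.log j ^ 3 / (2048 * 4 ^ (C₁ + 1) * j)) := by
          rw [hκ]
          field_simp
          norm_num
      _ ≤ _ := mul_le_mul_of_nonneg_right hcard (by positivity)
  have h3 : (A : ℝ) * Real.log j ≤ κ * Real.log j ^ 3 := by
    rw [div_le_iff₀ hκ0] at hLA
    have h4 : 0 ≤ κ * Real.log j := by positivity
    calc (A : ℝ) * Real.log j ≤ (Real.log j * κ) * Real.log j := mul_le_mul_of_nonneg_right hLA (by linarith)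
      _ = κ * Real.log j * (1 * Real.log j) := by ring
      _ ≤ κ * Real.log j * (Real.log j * Real.log j) := by
          apply mul_le_mul_of_nonneg_left _ h4
          exact mul_le_mul_of_nonneg_right hL1 (by linarith)
      _ = κ * Real.log j ^ 3 := by ring
  calc Real.exp (-∑ i ∈ I, (kk C₁ i₀ i : ℝ) * dd C₁ i / 4) ≤ Real.exp (-(A * Real.log j)) :=
        Real.exp_le_exp.2 (by linarith)
    _ = 1 / (j : ℝ) ^ A := by
        rw [Real.exp_neg, Real.exp_nat_mul, Real.exp_log (by linarith), one_div]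

/-- the numbers with few representations -/
lemma few {C₁ i₀ : ℕ} {T : ℕ → Finset ℕ}
    (h : ∀ i (F : Finset (ℕ × ℕ)), ∑ x ∈ F, ww x * (fac (dd C₁) (kk C₁ i₀) (Act C₁) i x)⁻¹ *
      (1 / 2 : ℝ) ^ (((range i).biUnion T).filter (RR x)).card ≤ 1) (m A : ℕ) :
    ∀ᶠ j : ℕ in atTop, ∀ G : Finset ℕ, (∀ n ∈ G, 2 ^ j < n ∧ n ≤ 2 ^ (j + 1) ∧
      (∀ i : ℕ, j + 1 ≤ 4 * i → 5 * i ≤ 2 * j → dd C₁ i * (Bp i).card ≤ (((Bp i).filter (RR (m, n))).card : ℝ)) ∧
      ((((range j).biUnion T).filter (RR (m, n))).card : ℝ) < Real.log j) →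
      (G.card : ℝ) ≤ 1 / 2 * (2 ^ j / (j : ℝ) ^ A) := by
  filter_upwards [fac_small C₁ i₀ (A + 4) m, eventually_ge_atTop (96 * 2 ^ m + 2)] with j hj hj2 G hG
  have hj1 : (2 : ℝ) ≤ j := by
    have : 2 ≤ j := by
      have : 1 ≤ 2 ^ m := Nat.one_le_pow _ _ (by norm_num)
      omega
    exact_mod_cast this
  have hjm : 96 * (2 : ℝ) ^ m ≤ j := by
    have : 96 * 2 ^ m ≤ j := by omega
    exact_mod_cast this
  have hj0 : (0 : ℝ) < j := by linarith
  have h1 := h j (G.image (fun n => (m, n)))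
  rw [sum_image (by
    intro a _ b _ hab
    exact (Prod.mk.inj hab).2)] at h1
  obtain ⟨τ, hτ⟩ : ∃ τ : ℝ, τ = (1 / 2) ^ (m + 1) * ((1 / 2) ^ (j + 2) / (((j : ℝ) + 1) * (j + 2))) *
      (j : ℝ) ^ (A + 4) * (1 / j) := ⟨_, rfl⟩
  have h2 : ∀ n ∈ G, τ ≤ ww (m, n) * (fac (dd C₁) (kk C₁ i₀) (Act C₁) j (m, n))⁻¹ *
      (1 / 2 : ℝ) ^ (((range j).biUnion T).filter (RR (m, n))).card := by
    intro n hn
    obtain ⟨g1, g2, g3, g4⟩ := hG n hn
    have hw : ww (m, n) = (1 / 2) ^ (m + 1) * ((1 / 2) ^ (j + 2) / (((j : ℝ) + 1) * (j + 2))) := by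
      unfold ww wn
      simp only
      rw [sc_eq g1 g2]
    have hf := hj n g2 g3
    have hf0 := fac_pos (dd_pos C₁) (kk C₁ i₀) (Act C₁) j (m, n)
    have hf1 : (j : ℝ) ^ (A + 4) ≤ (fac (dd C₁) (kk C₁ i₀) (Act C₁) j (m, n))⁻¹ := by
      rw [le_inv_comm₀ (by positivity) hf0]
      rw [one_div] at hf
      exact hf
    have hh : 1 / (j : ℝ) ≤ (1 / 2 : ℝ) ^ (((range j).biUnion T).filter (RR (m, n))).card := by
      obtain ⟨k, hk⟩ : ∃ k, k = (((range j).biUnion T).filter (RR (m, n))).card := ⟨_, rfl⟩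
      rw [← hk] at g4 ⊢
      have h3 : (2 : ℝ) ^ k ≤ j := by
        have h4 : (2 : ℝ) ^ k = Real.exp (k * Real.log 2) := by
          rw [Real.exp_nat_mul, Real.exp_log (by norm_num)]
        rw [h4]
        have hl2 := Real.log_two_lt_d9
        have hl2' := Real.log_two_gt_d9
        have hk0 : (0 : ℝ) ≤ k := by positivity
        calc Real.exp (k * Real.log 2) ≤ Real.exp (Real.log j) := Real.exp_le_exp.2 (by nlinarith)
          _ = j := Real.exp_log hj0
      rw [one_div_pow]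
      exact one_div_le_one_div_of_le (by positivity) h3
    rw [hτ, hw]
    apply mul_le_mul _ hh (by positivity) (by positivity)
    apply mul_le_mul_of_nonneg_left hf1 (by positivity)
  have h3 : (G.card : ℝ) * τ ≤ 1 := by
    have h4 := (sum_le_sum h2).trans h1
    rwa [sum_const, nsmul_eq_mul] at h4
  have hτ2 : τ = (j : ℝ) ^ (A + 4) / (8 * 2 ^ m * 2 ^ j * (((j : ℝ) + 1) * (j + 2)) * j) := by
    rw [hτ, one_div_pow, one_div_pow, pow_succ (2 : ℝ) m, pow_add (2 : ℝ) j 2]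
    field_simp
    norm_num
  have hτ0 : 0 < τ := by rw [hτ2]; positivity
  have h4 : (G.card : ℝ) ≤ 1 / τ := by
    rw [le_div_iff₀ hτ0]
    exact h3
  refine h4.trans ?_
  rw [hτ2, one_div_div, div_le_iff₀ (by positivity)]
  have h5 : ((j : ℝ) + 1) * (j + 2) ≤ 6 * j ^ 2 := by nlinarith
  have h6 : 1 / 2 * (2 ^ j / (j : ℝ) ^ A) * (j : ℝ) ^ (A + 4) = 1 / 2 * 2 ^ j * (j : ℝ) ^ 4 := by
    rw [pow_add (j : ℝ) A 4]
    field_simp
  rw [h6]
  calc 8 * 2 ^ m * 2 ^ j * (((j : ℝ) + 1) * (j + 2)) * j ≤ 8 * 2 ^ m * 2 ^ j * (6 * j ^ 2) * j := by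
        gcongr
    _ = 1 / 2 * 2 ^ j * (96 * 2 ^ m) * j ^ 3 := by ring
    _ ≤ 1 / 2 * 2 ^ j * j * j ^ 3 := by
        gcongr
    _ = 1 / 2 * 2 ^ j * (j : ℝ) ^ 4 := by ring

end Pool.Agent.H563.UQ
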