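import Pool.Agent.H563.UQ.Fin

/-!
# Every set which represents a positive proportion of the integers has `≫ log x` elements
-/

set_option autoImplicit false

namespace Pool.Agent.H563.UQ

open Finset Filter Topology
open scoped Classical

lemma pi_up : ∃ b₀ : ℕ, ∀ b : ℕ, b₀ ≤ b → (Nat.primeCounting b : ℝ) ≤ 4 * (b / Real.log b) := by
  have ev := Chebyshev.eventually_primeCounting_le (show (0 : ℝ) < 1 / 2 by norm_num)
  obtain ⟨x₀, hx₀⟩ := Filter.eventually_atTop.1 ev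
  refine ⟨⌈x₀⌉₊ + 2, fun b hb => ?_⟩
  have hb2 : (2 : ℝ) ≤ b := by exact_mod_cast (by omega : 2 ≤ b)
  have h1 := hx₀ (b : ℝ) (by
    have h := Nat.le_ceil x₀
    have : ((⌈x₀⌉₊ : ℕ) : ℝ) ≤ b := by exact_mod_cast (by omega : ⌈x₀⌉₊ ≤ b)
    linarith)
  rw [Nat.floor_natCast] at h1
  refine h1.trans ?_
  have hl : 0 < Real.log (b : ℝ) := Real.log_pos (by linarith)
  have h4 : Real.log 4 + 1 / 2 ≤ 4 := by
    have : Real.log 4 = 2 * Real.log 2 := by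
      rw [show (4 : ℝ) = 2 ^ 2 by norm_num, Real.log_pow]
      norm_num
    have := Real.log_two_lt_d9
    linarith
  calc (Real.log 4 + 1 / 2) * (b : ℝ) / Real.log b = (Real.log 4 + 1 / 2) * (b / Real.log b) := by ring
    _ ≤ _ := mul_le_mul_of_nonneg_right h4 (by positivity)

/-- the arguments are small -/
lemma arg_small (b c : ℤ) : ∀ᶠ j : ℕ in atTop, ∀ n q : ℕ, n ≤ 2 ^ (j + 1) → Rq b c n q → q ≤ 2 ^ ((j + 3) / 2) ∧
    ∃ p : ℕ, p.Prime ∧ p ≤ 2 ^ (j + 2) ∧ (n : ℤ) = ((q : ℤ) ^ 2 + b * q + c) + p := by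
  obtain ⟨M, hM⟩ : ∃ M : ℕ, M = 2 * b.natAbs + 2 * c.natAbs + b.natAbs * b.natAbs + 2 := ⟨_, rfl⟩
  filter_upwards [eventually_ge_atTop (2 * M)] with j hj n q hn hq
  obtain ⟨_, p, hp, he⟩ := hq
  have h1 : M < 2 ^ M := Nat.lt_two_pow_self
  have h2 : 2 ^ M ≤ 2 ^ ((j + 3) / 2) := Nat.pow_le_pow_right (by norm_num) (by omega)
  have h3 : 2 ^ M ≤ 2 ^ (j + 1) := Nat.pow_le_pow_right (by norm_num) (by omega)
  have hb1 : -(b.natAbs : ℤ) ≤ b := by omega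
  have hc1 : -(c.natAbs : ℤ) ≤ c := by omega
  have hb0 : (0 : ℤ) ≤ (b.natAbs : ℤ) := Int.natCast_nonneg _
  have hc0 : (0 : ℤ) ≤ (c.natAbs : ℤ) := Int.natCast_nonneg _
  have hq0 : (0 : ℤ) ≤ (q : ℤ) := Int.natCast_nonneg _
  have hp0 : (0 : ℤ) < (p : ℤ) := by exact_mod_cast hp.pos
  have hn' : (n : ℤ) ≤ 2 ^ (j + 1) := by exact_mod_cast hn
  have hMZ : (M : ℤ) = 2 * b.natAbs + 2 * c.natAbs + b.natAbs * b.natAbs + 2 := by exact_mod_cast hM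
  constructor
  · by_contra hcon
    push Not at hcon
    have h4 : M < q := by omega
    have h4' : (M : ℤ) < q := by exact_mod_cast h4
    have h5 : (2 : ℤ) ^ (j + 2) ≤ (q : ℤ) ^ 2 := by
      have h6 : 2 ^ (j + 2) ≤ q ^ 2 := by
        calc 2 ^ (j + 2) ≤ 2 ^ ((j + 3) / 2 * 2) := Nat.pow_le_pow_right (by norm_num) (by omega)
          _ = (2 ^ ((j + 3) / 2)) ^ 2 := by rw [pow_mul]
          _ ≤ q ^ 2 := Nat.pow_le_pow_left hcon.le 2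
      exact_mod_cast h6
    have h7 : (2 : ℤ) ^ (j + 2) = 2 * 2 ^ (j + 1) := by rw [pow_succ]; ring
    have h8 : -(b.natAbs : ℤ) * q ≤ b * q := mul_le_mul_of_nonneg_right hb1 hq0
    have h9 : 2 * (b.natAbs : ℤ) * q + 2 * (c.natAbs : ℤ) ≤ (q : ℤ) ^ 2 := by
      nlinarith
    nlinarith
  · refine ⟨p, hp, ?_, he⟩
    have h4 : (p : ℤ) ≤ 2 ^ (j + 2) := by
      have h7 : (2 : ℤ) ^ (j + 2) = 2 * 2 ^ (j + 1) := by rw [pow_succ]; ring
      have h8 : -(b.natAbs : ℤ) * q ≤ b * q := mul_le_mul_of_nonneg_right hb1 hq0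
      have h9 : (M : ℤ) ≤ 2 ^ (j + 1) := by
        have : M ≤ 2 ^ (j + 1) := by omega
        exact_mod_cast this
      nlinarith [sq_nonneg ((b.natAbs : ℤ) - 2 * q)]
    exact_mod_cast h4

theorem lower (b c : ℤ) (δ : ℝ) (hδ : 0 < δ) (Q : Set ℕ)
    (h : ∀ᶠ j : ℕ in atTop, δ * 2 ^ j ≤ ({n : ℕ | 2 ^ j < n ∧ n ≤ 2 ^ (j + 1) ∧ ∃ q ∈ Q, Rq b c n q}.ncard : ℝ)) :
    ∀ᶠ x : ℕ in atTop, δ / 32 * Real.log x ≤ ({q | q ∈ Q ∧ q ≤ x}.ncard : ℝ) := by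
  obtain ⟨b₀, hb₀⟩ := pi_up
  obtain ⟨J, hJ⟩ := eventually_atTop.1 (h.and (arg_small b c))
  have tL : Tendsto (fun N : ℕ => Real.log (N : ℝ)) atTop atTop :=
    Real.tendsto_log_atTop.comp tendsto_natCast_atTop_atTop
  filter_upwards [tL.eventually_ge_atTop ((J : ℝ) + b₀ + 20), eventually_ge_atTop 1] with x hx hx1
  have hl2 := Real.log_two_gt_d9
  have hl2' := Real.log_two_lt_d9
  have hx0 : (0 : ℝ) < x := by exact_mod_cast hx1
  obtain ⟨l, hl⟩ : ∃ l, l = Nat.log 2 x := ⟨_, rfl⟩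
  have hlx : 2 ^ l ≤ x := by
    rw [hl]
    exact Nat.pow_log_le_self 2 (by omega)
  have hxl : x < 2 ^ (l + 1) := by
    rw [hl]
    exact Nat.lt_pow_succ_log_self (by norm_num) x
  have hxl' : Real.log x ≤ (l + 1) * Real.log 2 := by
    have h1 : (x : ℝ) ≤ 2 ^ (l + 1) := by exact_mod_cast hxl.le
    have h2 := Real.log_le_log hx0 h1
    rw [Real.log_pow] at h2
    push_cast at h2
    exact h2
  have hJ0 : (0 : ℝ) ≤ J := by positivity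
  have hb00 : (0 : ℝ) ≤ b₀ := by positivity
  have hlJ : (J : ℝ) + b₀ + 10 ≤ l := by nlinarith
  have hlJ' : J + b₀ + 10 ≤ l := by exact_mod_cast hlJ
  obtain ⟨j, hj⟩ : ∃ j, j = 2 * l - 3 := ⟨_, rfl⟩
  obtain ⟨h1, h2⟩ := hJ j (by omega)
  have hjl : (j + 3) / 2 = l := by omega
  rw [hjl] at h2
  -- the injection
  obtain ⟨G, hG⟩ : ∃ G : Set ℕ, G = {q | q ∈ Q ∧ q ≤ x} := ⟨_, rfl⟩
  have hGf : G.Finite := (Set.finite_Iic x).subset fun q hq => by rw [hG] at hq; exact hq.2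
  obtain ⟨P, hP⟩ : ∃ P : Finset ℕ, P = (range (2 ^ (j + 2) + 1)).filter Nat.Prime := ⟨_, rfl⟩
  have hsub : {n : ℕ | 2 ^ j < n ∧ n ≤ 2 ^ (j + 1) ∧ ∃ q ∈ Q, Rq b c n q} ⊆
      (fun z : ℕ × ℕ => (((z.1 : ℤ) ^ 2 + b * z.1 + c) + z.2).toNat) '' ((hGf.toFinset ×ˢ P : Finset (ℕ × ℕ)) : Set (ℕ × ℕ)) := by
    rintro n ⟨_, g2, q, hq, hR⟩
    obtain ⟨g3, p, g4, g5, g6⟩ := h2 n q g2 hR
    refine ⟨(q, p), ?_, ?_⟩
    · rw [mem_coe, mem_product, Set.Finite.mem_toFinset, hG, hP, mem_filter, mem_range]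
      exact ⟨⟨hq, g3.trans hlx⟩, Nat.lt_succ_of_le g5, g4⟩
    · simp only
      rw [← g6]
      exact Int.toNat_natCast n
  have h3 : ({n : ℕ | 2 ^ j < n ∧ n ≤ 2 ^ (j + 1) ∧ ∃ q ∈ Q, Rq b c n q}.ncard : ℝ) ≤ (G.ncard : ℝ) * P.card := by
    have h4 := Set.ncard_le_ncard hsub ((finite_toSet _).image _)
    have h5 := Set.ncard_image_le (f := fun z : ℕ × ℕ => (((z.1 : ℤ) ^ 2 + b * z.1 + c) + z.2).toNat)
      (finite_toSet (hGf.toFinset ×ˢ P : Finset (ℕ × ℕ)))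
    rw [Set.ncard_coe_finset, card_product, ← Set.ncard_eq_toFinset_card _ hGf] at h5
    exact_mod_cast h4.trans h5
  have hPc : (P.card : ℝ) ≤ 4 * (((2 ^ (j + 2) : ℕ) : ℝ) / Real.log ((2 ^ (j + 2) : ℕ) : ℝ)) := by
    have h4 := hb₀ (2 ^ (j + 2)) (by
      have : j + 2 < 2 ^ (j + 2) := Nat.lt_two_pow_self
      omega)
    have h5 : P.card = Nat.primeCounting (2 ^ (j + 2)) := by
      rw [hP, Nat.primeCounting, Nat.primeCounting', Nat.count_eq_card_filter_range]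
    rw [h5]
    exact h4
  have hlog : Real.log ((2 ^ (j + 2) : ℕ) : ℝ) = (j + 2) * Real.log 2 := by
    push_cast
    rw [Real.log_pow]
    push_cast
    rfl
  have hjr : (j : ℝ) = 2 * l - 3 := by
    rw [hj, Nat.cast_sub (by omega)]
    push_cast
    ring
  have hj0 : (0 : ℝ) ≤ j := by positivity
  rw [hlog] at hPc
  have h4 : δ * 2 ^ j ≤ (G.ncard : ℝ) * (4 * (((2 ^ (j + 2) : ℕ) : ℝ) / ((j + 2) * Real.log 2))) :=
    (h1.trans h3).trans (mul_le_mul_of_nonneg_left hPc (by positivity))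
  have h5 : (G.ncard : ℝ) * (4 * (((2 ^ (j + 2) : ℕ) : ℝ) / ((j + 2) * Real.log 2))) =
      2 ^ j * (16 * G.ncard / ((j + 2) * Real.log 2)) := by
    push_cast
    rw [pow_add]
    ring
  rw [h5, mul_comm δ] at h4
  have h6 := le_of_mul_le_mul_left h4 (by positivity)
  rw [le_div_iff₀ (by positivity)] at h6
  rw [← hG]
  have h7 : Real.log x / 2 ≤ ((j : ℝ) + 2) * Real.log 2 := by
    rw [hjr]
    nlinarith
  have h8 : δ * (Real.log x / 2) ≤ δ * (((j : ℝ) + 2) * Real.log 2) := mul_le_mul_of_nonneg_left h7 hδ.le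
  linarith

end Pool.Agent.H563.UQ
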