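import Pool.Agent.H561.PG.Q6

set_option autoImplicit false

/-! Quadratic polynomials with almost every constant term (after `Pool.Agent.H561.PG.Q2`), with a lower bound for the
singular series. -/

namespace Pool.Agent.H563.UQ

open Finset Polynomial
open Pool.Agent.H373R2.T7
open Pool.Agent.R460.SB (QS QS_per QS_perB)
open Pool.Agent.R460.SC (tail_both)
open Pool.Agent.H561.PG
open Pool.Agent.H561

/-- the truncated singular series is at least a negative power of `log log X` -/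
theorem St_evl (c : ℕ) : ∃ C₁ : ℕ, ∀ E : ℕ, ∃ X₀ : ℕ, ∀ X : ℕ, X₀ ≤ X → ∀ z : ℕ, 1 ≤ z → (z : ℝ) ≤ Real.log X ^ E →
    ∀ (s : Bool) (Q : ℕ → ℕ → Prop), PerB Q c → (∀ p ∈ pz z, loc s Q p < 1) →
      1 / Real.log (Real.log X) ^ C₁ ≤ St s z Q := by
  obtain ⟨C, N0, hC⟩ := Vz_low
  refine ⟨C * (4 * c) + 1, fun E => ?_⟩
  obtain ⟨κ, hκ⟩ : ∃ κ : ℝ, κ = (1 / ((4 * c + 2 : ℕ) : ℝ)) ^ (4 * c + 2) := ⟨_, rfl⟩
  have hκ0 : 0 < κ := by rw [hκ]; positivity
  obtain ⟨y0, hy0⟩ : ∃ y0 : ℕ, y0 = N0 + 3 := ⟨_, rfl⟩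
  obtain ⟨κ', hκ'⟩ : ∃ κ' : ℝ, κ' = κ * (1 / (y0 : ℝ)) ^ (4 * c) := ⟨_, rfl⟩
  have hy00 : (0 : ℝ) < y0 := by
    rw [hy0]
    positivity
  have hκ'0 : 0 < κ' := by rw [hκ']; positivity
  have hlim : Filter.Tendsto (fun N : ℕ => Real.log (N : ℝ)) Filter.atTop Filter.atTop :=
    Real.tendsto_log_atTop.comp (tendsto_natCast_atTop_atTop (R := ℝ))
  have hlim2 : Filter.Tendsto (fun N : ℕ => Real.log (Real.log (N : ℝ))) Filter.atTop Filter.atTop :=
    Real.tendsto_log_atTop.comp hlim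
  obtain ⟨n0, h0⟩ := Filter.eventually_atTop.1 ((hlim2.eventually_ge_atTop
    (max 1 (max (1 / κ * ((E : ℝ) + 1) ^ (C * (4 * c))) (1 / κ')))).and (hlim.eventually_ge_atTop 3))
  refine ⟨n0, fun X hX z hz hzE s Q hQ hloc => ?_⟩
  obtain ⟨g, g3⟩ := h0 X hX
  obtain ⟨M, hM⟩ : ∃ M, M = Real.log (Real.log (X : ℝ)) := ⟨_, rfl⟩
  rw [← hM] at g ⊢
  have g0 : 1 ≤ M := (le_max_left _ _).trans g
  have g1 : 1 / κ * ((E : ℝ) + 1) ^ (C * (4 * c)) ≤ M := (le_max_left _ _).trans ((le_max_right _ _).trans g)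
  have g2 : 1 / κ' ≤ M := (le_max_right _ _).trans ((le_max_right _ _).trans g)
  have hM0 : 0 < M := by linarith
  have h1 := St_low s c Q hQ z hloc
  rw [← hκ] at h1
  have hV := Vz_pos z
  refine le_trans ?_ h1
  rcases lt_or_ge z y0 with h2 | h2
  · have h3 : 1 / (y0 : ℝ) ≤ Vz z := by
      refine le_trans ?_ (Vz_ge z hz)
      exact one_div_le_one_div_of_le (by exact_mod_cast hz) (by exact_mod_cast h2.le)
    calc 1 / M ^ (C * (4 * c) + 1) ≤ 1 / M := by
          apply one_div_le_one_div_of_le hM0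
          exact le_self_pow₀ g0 (by omega)
      _ ≤ κ' := by
          rw [div_le_iff₀ hM0]
          rw [div_le_iff₀ hκ'0] at g2
          linarith
      _ = κ * (1 / (y0 : ℝ)) ^ (4 * c) := hκ'
      _ ≤ _ := by gcongr
  · have h3 := hC z (by omega)
    have hz3 : (3 : ℝ) ≤ z := by exact_mod_cast (by omega : 3 ≤ z)
    have hlz : 1 ≤ Real.log z := by
      rw [Real.le_log_iff_exp_le (by linarith)]
      have := Real.exp_one_lt_d9
      linarith
    have hlz2 : Real.log z ≤ ((E : ℝ) + 1) * M := by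
      have e1 : Real.log z ≤ Real.log (Real.log X ^ E) := Real.log_le_log (by linarith) hzE
      rw [Real.log_pow, ← hM] at e1
      nlinarith
    have h4 : 1 / (((E : ℝ) + 1) * M) ^ C ≤ Vz z := by
      refine le_trans ?_ h3
      apply one_div_le_one_div_of_le (by positivity)
      exact pow_le_pow_left₀ (by linarith) hlz2 C
    have h5 : 0 < ((E : ℝ) + 1) * M := by positivity
    calc 1 / M ^ (C * (4 * c) + 1) ≤ κ * (1 / (((E : ℝ) + 1) * M) ^ C) ^ (4 * c) := by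
          rw [div_pow, one_pow, ← pow_mul, mul_one_div, div_le_div_iff₀ (by positivity) (by positivity), one_mul,
            mul_pow, pow_succ]
          have h6 : ((E : ℝ) + 1) ^ (C * (4 * c)) ≤ κ * M := by
            rw [div_mul_eq_mul_div, one_mul, div_le_iff₀ hκ0] at g1
            linarith
          have h7 : 0 < M ^ (C * (4 * c)) := by positivity
          calc ((E : ℝ) + 1) ^ (C * (4 * c)) * M ^ (C * (4 * c)) ≤ (κ * M) * M ^ (C * (4 * c)) :=
                mul_le_mul_of_nonneg_right h6 h7.le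
            _ = κ * (M ^ (C * (4 * c)) * M) := by ring
      _ ≤ _ := by gcongr

lemma ev_LL (B : ℝ) : ∃ X₀ : ℕ, ∀ X : ℕ, X₀ ≤ X → B ≤ Real.log (Real.log X) := by
  have hlim : Filter.Tendsto (fun N : ℕ => Real.log (N : ℝ)) Filter.atTop Filter.atTop :=
    Real.tendsto_log_atTop.comp (tendsto_natCast_atTop_atTop (R := ℝ))
  have hlim2 : Filter.Tendsto (fun N : ℕ => Real.log (Real.log (N : ℝ))) Filter.atTop Filter.atTop :=
    Real.tendsto_log_atTop.comp hlim
  exact Filter.eventually_atTop.1 (hlim2.eventually_ge_atTop B)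

lemma low_aux {C₁ : ℕ} {L x S T ε : ℝ} (hL : 100 ≤ L) (hLx : L ≤ x + 2) (hB : (2 : ℝ) ^ (C₁ + 3) ≤ Real.log L)
    (hT : 1 / Real.log L ^ C₁ ≤ T) (hS : |S - T| ≤ ε / 8 * T) (hε : ε ≤ 1) :
    1 / Real.log x ^ (C₁ + 1) ≤ S := by
  have hl2 := Real.log_two_lt_d9
  have h1 : L / 2 ≤ x := by linarith
  have h2 : Real.log (L / 2) ≤ Real.log x := Real.log_le_log (by linarith) h1
  rw [Real.log_div (by linarith) (by norm_num)] at h2
  obtain ⟨b, hb⟩ : ∃ b, b = Real.log L := ⟨_, rfl⟩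
  obtain ⟨a, ha⟩ : ∃ a, a = Real.log x := ⟨_, rfl⟩
  rw [← hb] at hB hT h2
  rw [← ha] at h2 ⊢
  have h3 : (8 : ℝ) ≤ 2 ^ (C₁ + 3) := by
    rw [pow_add]
    have : (1 : ℝ) ≤ 2 ^ C₁ := one_le_pow₀ (by norm_num)
    linarith
  have hba : b ≤ 2 * a := by linarith
  have hb0 : 0 < b := by linarith
  have ha0 : 0 < a := by linarith
  have h4 : (2 : ℝ) ^ C₁ * 4 ≤ a := by
    have : (2 : ℝ) ^ (C₁ + 3) = 2 ^ C₁ * 8 := by rw [pow_add]; norm_num
    linarith
  have h5 : b ^ C₁ * 4 ≤ a ^ (C₁ + 1) := by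
    calc b ^ C₁ * 4 ≤ (2 * a) ^ C₁ * 4 :=
          mul_le_mul_of_nonneg_right (pow_le_pow_left₀ hb0.le hba C₁) (by norm_num)
      _ = (2 ^ C₁ * 4) * a ^ C₁ := by rw [mul_pow]; ring
      _ ≤ a * a ^ C₁ := mul_le_mul_of_nonneg_right h4 (by positivity)
      _ = a ^ (C₁ + 1) := by rw [pow_succ]; ring
  have hT0 : 0 < T := lt_of_lt_of_le (by positivity) hT
  rw [abs_le] at hS
  have h6 : T / 2 ≤ S := by
    have : ε / 8 * T ≤ 1 / 8 * T := mul_le_mul_of_nonneg_right (by linarith) hT0.le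
    linarith [hS.1]
  have h7 : 1 / a ^ (C₁ + 1) ≤ 1 / (b ^ C₁ * 4) := one_div_le_one_div_of_le (by positivity) h5
  have h8 : 1 / (b ^ C₁ * 4) = (1 / b ^ C₁) / 4 := by
    field_simp
  rw [h8] at h7
  linarith

/-- the formula for one polynomial, for all windows with small arguments, and a lower bound for the singular series -/
def HoldL (s : Bool) (a b : ℤ) (δ ε : ℝ) (W D C₁ : ℕ) (c : ℤ) : Prop :=
  ∃ S : ℝ, 0 < S ∧ 1 / Real.log (Real.log c.natAbs) ^ (C₁ + 1) ≤ S ∧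
    ∀ u v : ℝ, 0 ≤ u → (c.natAbs : ℝ) ^ (1 / 8 + δ) ≤ v → v ^ 2 * Real.log c.natAbs ^ D ≤ c.natAbs →
      v / Real.log c.natAbs ^ W ≤ v - u →
      |(cntq s a b c u v : ℝ) - S * (v - u) / (lb s v * Real.log c.natAbs)| ≤
        ε * (S * (v - u) / (lb s v * Real.log c.natAbs))

open Classical in
/-- one dyadic range, one sign -/
theorem mainL (s : Bool) (a b : ℤ) (ha : 0 < a) (C₁ : ℕ)
    (hlow : ∀ E : ℕ, ∃ X₀ : ℕ, ∀ X : ℕ, X₀ ≤ X → ∀ z : ℕ, 1 ≤ z → (z : ℝ) ≤ Real.log X ^ E →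
    ∀ (s : Bool) (Q : ℕ → ℕ → Prop), PerB Q (2 + a.natAbs) → (∀ p ∈ pz z, loc s Q p < 1) →
      1 / Real.log (Real.log X) ^ C₁ ≤ St s z Q)
    (W A : ℕ) (δ ε : ℝ) (hδ : 0 < δ) (hδ1 : δ ≤ 1 / 8) (hε : 0 < ε) (hε1 : ε ≤ 1) :
    ∃ D X₀ : ℕ, ∀ X : ℕ, X₀ ≤ X → ∀ σ : ℤ, (σ = 1 ∨ σ = -1) →
    (((Icc 1 X).filter (fun m : ℕ => (LS s a b (σ * m) ∧ ¬ HoldL s a b δ ε W D C₁ (σ * m)) ∧ X ≤ 2 * m)).card : ℝ) ≤
      X / Real.log X ^ A := by
  obtain ⟨G, hG⟩ : ∃ G, G = GQ a b := ⟨_, rfl⟩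
  have hdeg : G.natDegree ≤ 2 := by rw [hG]; exact GQ_deg a b
  have hlead : 0 < G.coeff 2 := by rw [hG, GQ_coeff]; exact ha
  have hpos : ∀ t : ℕ, 1 ≤ t → 1 ≤ gv G t := by
    intro t ht
    rw [hG]
    exact GQ_pos a b ha t ht
  obtain ⟨cG, hcG, hval⟩ := val_le G 2 hdeg
  obtain ⟨E₀, D, hD1, hfam⟩ := famP s G 2 (by norm_num) hdeg hlead hpos (W + 1) (A + 2) (by omega) (δ / 2) (ε / 8)
    (by positivity) (by linarith) (by positivity) (by linarith)
  obtain ⟨U, hU⟩ : ∃ U, U = A + 3 := ⟨_, rfl⟩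
  obtain ⟨E', hE'⟩ : ∃ E', E' = E₀ + 3 * (U + 1) + 4 := ⟨_, rfl⟩
  obtain ⟨n1, h1⟩ := hfam (E' + 1)
  obtain ⟨n2, h2⟩ := tail_both a ha.ne' b (1 / 4) (by norm_num) U (E' + 1)
  obtain ⟨n3, h3⟩ := norm_all s 2 D W (by norm_num) (1 / (4 * (2 : ℕ)) + δ / 2) (δ / 2) ε (by positivity)
    (by push_cast; linarith) (by positivity) hε hε1
  obtain ⟨n4, h4⟩ := ev_L' (1000 / ε + 100 + 8 * cG + a.natAbs + 16)
  obtain ⟨n5, h5⟩ := ev_log' (A + 2) 1
  obtain ⟨n6, h6⟩ := St_ev (2 + a.natAbs) (E' + 1) 1 one_pos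
  obtain ⟨n7, h7⟩ := hlow (E' + 1)
  obtain ⟨n8, h8⟩ := ev_LL ((2 : ℝ) ^ (C₁ + 3))
  refine ⟨D + 2, n1 + n2 + n3 + n4 + n5 + n6 + n7 + n8 + 40 * (b.natAbs ^ 2 + 1) + 100, fun X hX σ hσ => ?_⟩
  obtain ⟨K, hK⟩ : ∃ K : ℕ, K = b.natAbs ^ 2 + 1 := ⟨_, rfl⟩
  have hKZ : (K : ℤ) = b ^ 2 + 1 := by
    rw [hK]
    push_cast
    rw [sq_abs]
  rw [← hK] at hX
  obtain ⟨X', hX'⟩ : ∃ X', X' = 2 * X := ⟨_, rfl⟩
  have k1 := h1 X' (by omega)
  have k2 := h2 X' (by omega)
  have k3 := h3 X' (by omega)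
  have k4 := h4 X' (by omega)
  have k5 := h5 X' (by omega)
  have k6 := h6 X' (by omega)
  have k7 := h7 X' (by omega)
  have k8 := h8 X' (by omega)
  have hX1 : (1 : ℝ) ≤ X := by exact_mod_cast (by omega : 1 ≤ X)
  have hX0 : (0 : ℝ) < X := by linarith
  have hX'r : (X' : ℝ) = 2 * X := by rw [hX']; push_cast; ring
  have hX'0 : (0 : ℝ) < X' := by linarith
  have hlogXX' : Real.log X ≤ Real.log X' := Real.log_le_log hX0 (by linarith)
  have hlogX0 : 0 ≤ Real.log X := Real.log_nonneg hX1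
  obtain ⟨L, hL⟩ : ∃ L, L = Real.log (X' : ℝ) := ⟨_, rfl⟩
  rw [← hL] at k1 k2 k4 k5 k6 k7 k8 hlogXX'
  have hcG0 : (0 : ℝ) ≤ cG := Nat.cast_nonneg _
  have haN : (0 : ℝ) ≤ a.natAbs := Nat.cast_nonneg _
  have p1 : 0 < 1000 / ε := by positivity
  have hL100 : 100 ≤ L := by linarith
  have hL1 : 1 ≤ L := by linarith
  have hL0 : 0 < L := by linarith
  -- the sieve level
  obtain ⟨z, hz⟩ : ∃ z, z = ⌈L ^ E'⌉₊ := ⟨_, rfl⟩
  have hzlo : L ^ E' ≤ z := by rw [hz]; exact Nat.le_ceil _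
  have hLE : 1 ≤ L ^ E' := one_le_pow₀ hL1
  have hzhi : (z : ℝ) ≤ L ^ (E' + 1) := by
    have := Nat.ceil_lt_add_one (show 0 ≤ L ^ E' by positivity)
    rw [← hz] at this
    calc (z : ℝ) ≤ L ^ E' + 1 := this.le
      _ ≤ L ^ E' + L ^ E' := by linarith
      _ = 2 * L ^ E' := by ring
      _ ≤ L * L ^ E' := mul_le_mul_of_nonneg_right (by linarith) (by positivity)
      _ = L ^ (E' + 1) := by ring
  have hzL2 : L ^ 2 ≤ z := (pow_le_pow_right₀ hL1 (by omega)).trans hzlo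
  have hzL : L ≤ z := (le_self_pow₀ hL1 (by norm_num)).trans hzL2
  have hz16 : 16 ≤ z := by
    have : (16 : ℝ) ≤ z := by linarith
    exact_mod_cast this
  have haz : a.natAbs ≤ z := by
    have : ((a.natAbs : ℕ) : ℝ) ≤ z := by linarith
    exact_mod_cast this
  have hz0 : (0 : ℝ) < z := by linarith
  have q1 := k1 z ((pow_le_pow_right₀ hL1 (by omega)).trans hzlo) hzhi σ hσ
  obtain ⟨Ex, hEx1, hEx2⟩ := k2 z ((pow_le_pow_right₀ hL1 (by omega)).trans hzlo) hzhi 1 le_rfl (by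
    push_cast
    apply Real.one_le_rpow (by linarith)
    norm_num) 0
  have q6 := k6 z (by omega) hzhi s
  rw [Real.rpow_one] at q6
  have q7 := k7 z (by omega) hzhi s
  obtain ⟨B1, hB1⟩ : ∃ B1 : Finset ℕ, B1 = (Icc 1 X').filter (fun N : ℕ => (X' : ℝ) / L ≤ N ∧
      (∀ p ∈ pz z, loc s (QP (GF σ G N)) p < 1) ∧
      ¬ GdT s 2 X' D (W + 1) (1 / (4 * (2 : ℕ)) + δ / 2) (ε / 8) (fG σ G N) (St s z (QP (GF σ G N)))) := ⟨_, rfl⟩
  rw [← hB1] at q1
  -- the exceptional set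
  have hsub : (Icc 1 X).filter (fun m : ℕ => (LS s a b (σ * m) ∧ ¬ HoldL s a b δ ε W (D + 2) C₁ (σ * m)) ∧ X ≤ 2 * m) ⊆
      ((Icc 1 X).filter (fun m : ℕ => ((m : ℤ) - σ * K).toNat ∈ B1 ∧ X ≤ 2 * m)) ∪ ((Icc 1 X).filter (fun m : ℕ => σ * (m : ℤ) ∈ Ex)) := by
    intro m hm
    rw [mem_filter, mem_Icc] at hm
    obtain ⟨⟨hm1, hmX⟩, ⟨hLS, hnH⟩, hXm⟩ := hm
    rw [mem_union, mem_filter, mem_filter, mem_Icc]
    by_cases hE : σ * (m : ℤ) ∈ Ex
    · exact Or.inr ⟨⟨hm1, hmX⟩, hE⟩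
    left
    refine ⟨⟨hm1, hmX⟩, ?_, hXm⟩
    by_contra hB
    apply hnH
    obtain ⟨c, hc⟩ : ∃ c : ℤ, c = σ * m := ⟨_, rfl⟩
    rw [← hc] at hLS hE ⊢
    obtain ⟨N, hNd⟩ : ∃ N, N = ((m : ℤ) - σ * K).toNat := ⟨_, rfl⟩
    rw [← hNd] at hB
    have hσ2 : σ * σ = 1 := by rcases hσ with h | h <;> rw [h] <;> norm_num
    have hσK : -(K : ℤ) ≤ σ * K ∧ σ * K ≤ K := by
      rcases hσ with h | h <;> rw [h] <;> constructor <;> omega
    have hmK : 20 * K ≤ m := by omega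
    have hNZ : (N : ℤ) = (m : ℤ) - σ * K := by
      rw [hNd]
      apply Int.toNat_of_nonneg
      omega
    have hNc : (N : ℤ) = σ * (c - (b ^ 2 + 1)) := by
      rw [hNZ, hc, ← hKZ]
      calc (m : ℤ) - σ * K = (σ * σ) * m - σ * K := by rw [hσ2, one_mul]
        _ = _ := by ring
    have hcabs : c.natAbs = m := by
      rw [hc, Int.natAbs_mul]
      rcases hσ with h | h <;> rw [h] <;> simp
    have hc0 : c ≠ 0 := by
      intro h
      rw [h] at hcabs
      simp at hcabs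
      omega
    have hQ : QP (GF σ G N) = QS (-a) (-b) c := by
      rw [hG]
      exact QP_eq a b σ hσ c N hNc
    have hmr : (m : ℝ) ≤ X := by exact_mod_cast hmX
    have hXmr : (X : ℝ) ≤ 2 * m := by exact_mod_cast hXm
    have hm0 : (0 : ℝ) < m := by linarith
    have hNr : (N : ℝ) ≤ 2 * m ∧ (m : ℝ) ≤ 2 * N := by
      constructor
      · have : N ≤ 2 * m := by omega
        exact_mod_cast this
      · have : m ≤ 2 * N := by omega
        exact_mod_cast this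
    have hcon : GdT s 2 X' D (W + 1) (1 / (4 * (2 : ℕ)) + δ / 2) (ε / 8) (fG σ G N) (St s z (QS (-a) (-b) c)) := by
      by_contra hcc
      apply hB
      rw [hB1, mem_filter, mem_Icc, hQ]
      refine ⟨⟨by omega, by omega⟩, ?_, fun p hp => hLS p (mem_pz.1 hp).2, hcc⟩
      rw [div_le_iff₀ hL0]
      have h1 : (X' : ℝ) ≤ N * 8 := by linarith
      refine h1.trans ?_
      apply mul_le_mul_of_nonneg_left _ (Nat.cast_nonneg _)
      linarith
    obtain ⟨hsq, htail⟩ := hEx2 c (by omega) (by omega) (by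
      push_cast
      exact Int.modEq_one) hE
    have hS1 : 1 / L ≤ St s z (QS (-a) (-b) c) := by
      apply q6 _ _ (fun p hp => hLS p (mem_pz.1 hp).2)
      have := GF_perB σ hσ G 2 (by norm_num) hdeg hlead N
      rw [hQ] at this
      have e : (G.coeff 2).natAbs = a.natAbs := by rw [hG, GQ_coeff]
      rwa [e] at this
    have hS0 : 0 < St s z (QS (-a) (-b) c) := lt_of_lt_of_le (by positivity) hS1
    have hS7 : 1 / Real.log L ^ C₁ ≤ St s z (QS (-a) (-b) c) := by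
      apply q7 _ _ (fun p hp => hLS p (mem_pz.1 hp).2)
      have := GF_perB σ hσ G 2 (by norm_num) hdeg hlead N
      rw [hQ] at this
      have e : (G.coeff 2).natAbs = a.natAbs := by rw [hG, GQ_coeff]
      rwa [e] at this
    have hlogc : Real.log c.natAbs ≤ L := by
      rw [hcabs, hL]
      exact Real.log_le_log hm0 (by linarith)
    -- the full product
    have hδ0 : (0 : ℝ) ≤ 1 / L ^ U := by positivity
    have hLU : 1 / L ^ U ≤ 1 / L := by
      apply one_div_le_one_div_of_le hL0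
      exact le_self_pow₀ hL1 (by omega)
    have h5z : 5 / (z : ℝ) ≤ 5 / L := div_le_div_of_nonneg_left (by norm_num) hL0 hzL
    have hKz' : L / (z : ℝ) ≤ 1 / L := by
      rw [div_le_div_iff₀ hz0 hL0]
      nlinarith
    have hLi : 1 / L ≤ 1 / 100 := one_div_le_one_div_of_le (by norm_num) hL100
    have h5L : 5 / L = 5 * (1 / L) := by ring
    have hεL : 1 / L ≤ ε / 1000 := by
      rw [div_le_div_iff₀ hL0 (by norm_num)]
      have : 1000 / ε ≤ L := by linarith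
      rw [div_le_iff₀ hε] at this
      linarith
    have h8K : 8 * L / (z : ℝ) = 8 * (L / z) := by ring
    have h4K : 4 * L / (z : ℝ) = 4 * (L / z) := by ring
    obtain ⟨S, hSp, hSt, hSd⟩ : ∃ S : ℝ, 0 < S ∧ Filter.Tendsto (fun z => St s z (QS (-a) (-b) c)) Filter.atTop (nhds S) ∧
        |S - St s z (QS (-a) (-b) c)| ≤ ε / 8 * St s z (QS (-a) (-b) c) := by
      cases s with
      | true =>
        obtain ⟨S, g1, g2, g3⟩ := tc_true (b := b) ha.ne' hc0 hz16 haz hsq hδ0 (by linarith) htail L hlogc hL1 (by linarith) hS0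
        refine ⟨S, g1, g2, g3.trans ?_⟩
        apply mul_le_mul_of_nonneg_right _ hS0.le
        linarith
      | false =>
        obtain ⟨S, g1, g2, g3⟩ := tc_false (b := b) ha.ne' (by omega) haz hsq hδ0 (by linarith) htail hS0
        refine ⟨S, g1, g2, g3.trans ?_⟩
        apply mul_le_mul_of_nonneg_right _ hS0.le
        linarith
    refine ⟨S, hSp, ?_, ?_⟩
    · rw [hcabs]
      have hlL2 : L ≤ Real.log m + 2 := by
        have e1 : Real.log X' ≤ Real.log (4 * m) := Real.log_le_log hX'0 (by linarith)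
        rw [Real.log_mul (by norm_num) hm0.ne'] at e1
        have h4 : Real.log 4 ≤ 2 := by
          have : Real.log 4 = 2 * Real.log 2 := by
            rw [show (4 : ℝ) = 2 ^ 2 by norm_num, Real.log_pow]
            norm_num
          have := Real.log_two_lt_d9
          linarith
        rw [hL]
        linarith
      exact low_aux hL100 hlL2 k8 hS7 hSd hε1
    have hgo := k3 m (by linarith) (by linarith) (fG σ G N) (St s z (QS (-a) (-b) c)) S hS0.le hSd hcon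
    intro u v hu hv hvD hvu
    rw [hcabs] at hv hvD hvu ⊢
    have hlL : Real.log m ≤ L := by
      rw [hL]
      exact Real.log_le_log hm0 (by linarith)
    have hlL2 : L ≤ Real.log m + 2 := by
      have e1 : Real.log X' ≤ Real.log (4 * m) := Real.log_le_log hX'0 (by linarith)
      rw [Real.log_mul (by norm_num) hm0.ne'] at e1
      have h4 : Real.log 4 ≤ 2 := by
        have : Real.log 4 = 2 * Real.log 2 := by
          rw [show (4 : ℝ) = 2 ^ 2 by norm_num, Real.log_pow]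
          norm_num
        have := Real.log_two_lt_d9
        linarith
      rw [hL]
      linarith
    have hl1 : 1 ≤ Real.log m := by linarith
    have hm1r : (1 : ℝ) ≤ m := by exact_mod_cast hm1
    have hv1 : 1 ≤ v := (Real.one_le_rpow hm1r (by positivity)).trans hv
    have hv0 : 0 < v := by linarith
    have hgo2 := hgo u v hu (by
      refine le_trans (le_of_eq ?_) hv
      congr 1
      push_cast
      ring) (by
      refine le_trans ?_ hvD
      apply mul_le_mul_of_nonneg_left _ (by positivity)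
      exact pow_le_pow_right₀ hl1 (by omega)) hvu
    have hcard : cntq s a b c u v = (PT s (fG σ G N) ⌊u⌋₊ ⌊v⌋₊).card := by
      unfold cntq PT
      congr 1
      apply filter_congr
      intro t ht
      rw [mem_Ioc] at ht
      have ht1 : 1 ≤ t := by omega
      have htv : (t : ℝ) ≤ v := (Nat.le_floor_iff hv0.le).1 ht.2
      -- the value is positive
      have hGt : |(gv G t : ℝ)| ≤ m / 4 := by
        have e2 : |(gv G t : ℝ)| ≤ cG * (t : ℝ) ^ 2 := by exact_mod_cast hval t ht1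
        refine e2.trans ?_
        rw [le_div_iff₀ (by norm_num)]
        calc (cG : ℝ) * (t : ℝ) ^ 2 * 4 = (t : ℝ) ^ 2 * (4 * cG) := by ring
          _ ≤ v ^ 2 * Real.log m ^ (D + 2) := by
              apply mul_le_mul _ _ (by positivity) (by positivity)
              · exact pow_le_pow_left₀ (Nat.cast_nonneg _) htv 2
              · calc (4 * cG : ℝ) ≤ Real.log m := by linarith
                  _ ≤ Real.log m ^ (D + 2) := le_self_pow₀ hl1 (by omega)
          _ ≤ m := hvD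
      have hgv : gv (GF σ G N) t = σ * (a * (t : ℤ) ^ 2 + b * t + c) := by
        rw [gv_GF, hNc, hG, gv_GQ]
        ring
      have hgvp : 0 < gv (GF σ G N) t := by
        have e3 : (gv (GF σ G N) t : ℝ) = N + σ * gv G t := by
          rw [gv_GF]
          push_cast
          ring
        have e5 : |(σ : ℝ) * gv G t| ≤ m / 4 := by
          rcases hσ with h | h
          · rw [h]
            simpa using hGt
          · rw [h]
            simpa using hGt
        rw [abs_le] at e5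
        have e6 : (0 : ℝ) < (gv (GF σ G N) t : ℝ) := by
          rw [e3]
          linarith [e5.1, hNr.2]
        exact_mod_cast e6
      have hnat : (gv (GF σ G N) t).toNat = (a * (t : ℤ) ^ 2 + b * t + c).natAbs := by
        have e7 : (gv (GF σ G N) t).toNat = (gv (GF σ G N) t).natAbs := by omega
        rw [e7, hgv, Int.natAbs_mul]
        rcases hσ with h | h <;> rw [h] <;> simp
      constructor
      · rintro ⟨g1, g2⟩
        refine ⟨g1, fun i => ?_⟩
        unfold fG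
        rw [hnat]
        exact g2
      · rintro ⟨g1, g2⟩
        refine ⟨g1, ?_⟩
        have := g2 0
        unfold fG at this
        rw [hnat] at this
        exact this
    rw [hcard]
    exact hgo2
  -- the size of the exceptional set
  have hc1 : ((Icc 1 X).filter (fun m : ℕ => ((m : ℤ) - σ * K).toNat ∈ B1 ∧ X ≤ 2 * m)).card ≤ B1.card := by
    apply card_le_card_of_injOn (fun m : ℕ => ((m : ℤ) - σ * K).toNat)
    · intro m hm
      exact (mem_filter.1 (mem_coe.1 hm)).2.1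
    · intro m hm m' hm' h
      have g1 := (mem_filter.1 (mem_coe.1 hm)).2.2
      have g2 := (mem_filter.1 (mem_coe.1 hm')).2.2
      have hσK : -(K : ℤ) ≤ σ * K ∧ σ * K ≤ K := by
        rcases hσ with h | h <;> rw [h] <;> constructor <;> omega
      simp only at h
      omega
  have hc2 : ((Icc 1 X).filter (fun m : ℕ => σ * (m : ℤ) ∈ Ex)).card ≤ Ex.card := by
    apply card_le_card_of_injOn (fun m : ℕ => σ * (m : ℤ))
    · intro m hm
      exact (mem_filter.1 (mem_coe.1 hm)).2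
    · intro m hm m' hm' h
      simp only at h
      rcases hσ with h' | h' <;> rw [h'] at h <;> omega
  have hcard := (card_le_card hsub).trans (card_union_le _ _)
  have hcardr : (((Icc 1 X).filter (fun m : ℕ => (LS s a b (σ * m) ∧ ¬ HoldL s a b δ ε W (D + 2) C₁ (σ * m)) ∧ X ≤ 2 * m)).card : ℝ) ≤
      B1.card + Ex.card := by
    exact_mod_cast hcard.trans (add_le_add hc1 hc2)
  refine hcardr.trans ?_
  have hLA : 0 < L ^ A := by positivity
  have e1 : (X' : ℝ) / L ^ (A + 2) = (2 / L ^ 2) * (X / L ^ A) := by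
    rw [hX'r, pow_add]
    field_simp
  have e2 : 2 * ((X' : ℝ) / ((1 : ℕ) * L ^ U)) ≤ (4 / L ^ 2) * (X / L ^ A) := by
    have e3 : (X' : ℝ) / ((1 : ℕ) * L ^ U) ≤ X' / L ^ (A + 2) := by
      push_cast
      rw [one_mul]
      apply div_le_div_of_nonneg_left hX'0.le (by positivity)
      exact pow_le_pow_right₀ hL1 (by omega)
    rw [e1] at e3
    have : (4 / L ^ 2) * (X / L ^ A) = 2 * ((2 / L ^ 2) * (X / L ^ A)) := by ring
    linarith
  have e4 : (1 : ℝ) ≤ (2 / L ^ 2) * (X / L ^ A) := by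
    rw [← e1, le_div_iff₀ (by positivity), one_mul]
    rw [one_mul] at k5
    refine k5.trans ?_
    rw [Real.sqrt_le_left (by linarith)]
    nlinarith
  have e5 : (8 / L ^ 2) * ((X : ℝ) / L ^ A) ≤ X / L ^ A := by
    apply mul_le_of_le_one_left (by positivity)
    rw [div_le_one (by positivity)]
    nlinarith
  have e6 : (X : ℝ) / L ^ A ≤ X / Real.log X ^ A := by
    apply div_le_div_of_nonneg_left hX0.le
    · apply pow_pos
      apply Real.log_pos
      have : (1 : ℝ) < X := by exact_mod_cast (by omega : 1 < X)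
      exact this
    · exact pow_le_pow_left₀ hlogX0 hlogXX' A
  have e7 : (8 / L ^ 2) * ((X : ℝ) / L ^ A) = (2 / L ^ 2) * (X / L ^ A) + (4 / L ^ 2) * (X / L ^ A) + (2 / L ^ 2) * (X / L ^ A) := by ring
  rw [e1] at q1
  linarith

open Classical in
/-- **Quadratic polynomials with almost every constant term.** -/
theorem quadL (s : Bool) (a b : ℤ) (ha : 0 < a) (C₁ : ℕ)
    (hlow : ∀ E : ℕ, ∃ X₀ : ℕ, ∀ X : ℕ, X₀ ≤ X → ∀ z : ℕ, 1 ≤ z → (z : ℝ) ≤ Real.log X ^ E →
    ∀ (s : Bool) (Q : ℕ → ℕ → Prop), PerB Q (2 + a.natAbs) → (∀ p ∈ pz z, loc s Q p < 1) →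
      1 / Real.log (Real.log X) ^ C₁ ≤ St s z Q)
    (W A : ℕ) (δ ε : ℝ) (hδ : 0 < δ) (hδ1 : δ ≤ 1 / 8) (hε : 0 < ε) (hε1 : ε ≤ 1) :
    ∃ D X₀ : ℕ, ∀ X : ℕ, X₀ ≤ X →
    (((Icc (-(X : ℤ)) X).filter (fun c : ℤ => c ≠ 0 ∧ LS s a b c ∧ ¬ HoldL s a b δ ε W D C₁ c)).card : ℝ) ≤
      X / Real.log X ^ A := by
  obtain ⟨D, X0, h⟩ := mainL s a b ha C₁ hlow W (A + 2) δ ε hδ hδ1 hε hε1
  have hdy : ∀ σ : ℤ, (σ = 1 ∨ σ = -1) → ∃ X₁ : ℕ, ∀ X : ℕ, X₁ ≤ X →
      (((Icc 1 X).filter (fun m : ℕ => LS s a b (σ * m) ∧ ¬ HoldL s a b δ ε W D C₁ (σ * m))).card : ℝ) ≤ X / Real.log X ^ (A + 1) := by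
    intro σ hσ
    obtain ⟨X1, h1⟩ := CM.dyadic (fun m : ℕ => LS s a b (σ * m) ∧ ¬ HoldL s a b δ ε W D C₁ (σ * m)) (A + 1) X0 (by
      intro X hX
      refine le_trans (le_of_eq ?_) (h X hX σ hσ)
      congr 2
      ext m
      simp only [mem_filter])
    refine ⟨X1, fun X hX => ?_⟩
    refine le_trans (le_of_eq ?_) (h1 X hX)
    congr 2
    ext m
    simp only [mem_filter]
  obtain ⟨n1, h1⟩ := hdy 1 (Or.inl rfl)
  obtain ⟨n2, h2⟩ := hdy (-1) (Or.inr rfl)
  obtain ⟨n3, h3⟩ := ev_L' 2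
  refine ⟨D, n1 + n2 + n3 + 3, fun X hX => ?_⟩
  have k1 := h1 X (by omega)
  have k2 := h2 X (by omega)
  have k3 := h3 X (by omega)
  have hX0 : (0 : ℝ) < X := by exact_mod_cast (by omega : 0 < X)
  obtain ⟨F1, hF1⟩ : ∃ F1, F1 = (Icc 1 X).filter (fun m : ℕ => LS s a b (1 * m) ∧ ¬ HoldL s a b δ ε W D C₁ (1 * m)) := ⟨_, rfl⟩
  obtain ⟨F2, hF2⟩ : ∃ F2, F2 = (Icc 1 X).filter (fun m : ℕ => LS s a b (-1 * m) ∧ ¬ HoldL s a b δ ε W D C₁ (-1 * m)) := ⟨_, rfl⟩
  rw [← hF1] at k1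
  rw [← hF2] at k2
  have hsub : (Icc (-(X : ℤ)) X).filter (fun c : ℤ => c ≠ 0 ∧ LS s a b c ∧ ¬ HoldL s a b δ ε W D C₁ c) ⊆
      F1.image (fun m : ℕ => (m : ℤ)) ∪ F2.image (fun m : ℕ => -(m : ℤ)) := by
    intro c hc
    rw [mem_filter, mem_Icc] at hc
    obtain ⟨⟨g1, g2⟩, g3, g4, g5⟩ := hc
    have g6 : ¬ HoldL s a b δ ε W D C₁ c := g5
    rw [mem_union, mem_image, mem_image]
    rcases lt_or_gt_of_ne g3 with h | h
    · right
      refine ⟨c.natAbs, ?_, by omega⟩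
      have e : (-1 : ℤ) * ((c.natAbs : ℕ) : ℤ) = c := by omega
      rw [hF2, mem_filter, mem_Icc, e]
      exact ⟨⟨by omega, by omega⟩, g4, g6⟩
    · left
      refine ⟨c.natAbs, ?_, by omega⟩
      have e : (1 : ℤ) * ((c.natAbs : ℕ) : ℤ) = c := by omega
      rw [hF1, mem_filter, mem_Icc, e]
      exact ⟨⟨by omega, by omega⟩, g4, g6⟩
  have hcard : (((Icc (-(X : ℤ)) X).filter (fun c : ℤ => c ≠ 0 ∧ LS s a b c ∧ ¬ HoldL s a b δ ε W D C₁ c)).card : ℝ) ≤ F1.card + F2.card := by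
    exact_mod_cast (card_le_card hsub).trans ((card_union_le _ _).trans (add_le_add card_image_le card_image_le))
  refine hcard.trans ?_
  have hLA : 0 < Real.log (X : ℝ) ^ A := pow_pos (by linarith) A
  calc (F1.card : ℝ) + F2.card ≤ X / Real.log X ^ (A + 1) + X / Real.log X ^ (A + 1) := add_le_add k1 k2
    _ = (2 / Real.log X) * (X / Real.log X ^ A) := by
        rw [pow_succ]
        field_simp
        ring
    _ ≤ 1 * (X / Real.log X ^ A) := by
        apply mul_le_mul_of_nonneg_right _ (by positivity)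
        rw [div_le_one (by linarith)]
        exact k3
    _ = _ := one_mul _

end Pool.Agent.H563.UQ
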