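import Pool.Agent.H563.UQ.Low

set_option autoImplicit false

/-! Odd numbers `n = f(p) + q` with a monic quadratic polynomial `f`: from `|c - n|` to `n` (after `Pool.Agent.H561.PG.Q6`). -/

namespace Pool.Agent.H563.UQ

open Finset
open Pool.Agent.H373R2.T7
open Pool.Agent.R460.SB (QS QS_per QS_perB QS_two)
open Pool.Agent.H561.PG

theorem monL (b c : ℤ) (δ ε : ℝ) (hδ : 0 < δ) (hε : 0 < ε) (hε1 : ε ≤ 1) (W D C₁ : ℕ) : ∃ n₀ : ℕ, ∀ n : ℕ, n₀ ≤ n →
    HoldL true 1 b (δ / 2) (ε / 4) (W + 1) D C₁ (c - n) →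
    ∃ S : ℝ, 0 < S ∧ 1 / Real.log (Real.log ((c - n).natAbs : ℕ)) ^ (C₁ + 1) ≤ S ∧
      ∀ u v : ℝ, 0 ≤ u → (n : ℝ) ^ (1 / 8 + δ) ≤ v → v ^ 2 * Real.log n ^ (D + 3) ≤ n → v / Real.log n ^ W ≤ v - u →
        |(cntn b c n u v : ℝ) - S * (v - u) / (Real.log v * Real.log n)| ≤ ε * (S * (v - u) / (Real.log v * Real.log n)) := by
  classical
  obtain ⟨n0, h0⟩ := ev_cmp b c δ (ε / 4) hδ (by linarith) W D
  refine ⟨n0 + 2, fun n hn hH => ?_⟩
  obtain ⟨hcn, k1, k2, k3, k4, k5, k6, k7, k8, k9⟩ := h0 n (by omega)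
  obtain ⟨S, g1, g2, g3⟩ := hH
  have hn0 : (0 : ℝ) < n := by exact_mod_cast (by omega : 0 < n)
  have hn1 : (1 : ℝ) ≤ n := by exact_mod_cast (by omega : 1 ≤ n)
  obtain ⟨M, hM⟩ : ∃ M : ℕ, M = (c - n).natAbs := ⟨_, rfl⟩
  rw [← hM] at k1 k2 k4 k5 k6 k7 k8 g2 g3
  refine ⟨S, g1, by rw [← hM]; exact g2, ?_⟩
  · intro u v hu hv hvD hvu
    have hL0 : 0 < Real.log n := by linarith
    have hv0 : 1 ≤ v := (Real.one_le_rpow hn1 (by positivity)).trans hv
    have hM0 : (0 : ℝ) < M := by linarith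
    have c1 : (M : ℝ) ^ (1 / 8 + δ / 2) ≤ v := k5.trans hv
    have c2 : v ^ 2 * Real.log M ^ D ≤ M := by
      have : v ^ 2 * (Real.log M ^ D * 2) ≤ n := (mul_le_mul_of_nonneg_left k6 (by positivity)).trans hvD
      linarith
    have c3 : v / Real.log M ^ (W + 1) ≤ v - u := by
      refine le_trans ?_ hvu
      exact div_le_div_of_nonneg_left (by linarith) (by positivity) k7
    have c4 := g3 u v hu c1 c2 c3
    have hlb : lb true v = Real.log v := by simp [lb]
    rw [hlb] at c4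
    have hcount : cntq true 1 b (c - n) u v = cntn b c n u v := by
      unfold cntq cntn
      congr 1
      apply filter_congr
      intro p hp
      rw [mem_Ioc] at hp
      have hpv : (p : ℝ) ≤ v := (Nat.cast_le.2 hp.2).trans (Nat.floor_le (by linarith))
      have h5 := k9 v (by linarith) hvD
      have h6 : ((p : ℤ) ^ 2 + b * p + c : ℤ) < n := by
        have : ((p : ℝ) ^ 2 + b * p + c : ℝ) < n := by
          have hp0 : (0 : ℝ) ≤ p := Nat.cast_nonneg p
          have h7 : (b : ℝ) * p ≤ |(b : ℝ)| * v := by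
            calc (b : ℝ) * p ≤ |(b : ℝ)| * p := mul_le_mul_of_nonneg_right (le_abs_self _) hp0
              _ ≤ _ := mul_le_mul_of_nonneg_left hpv (abs_nonneg _)
          have h8 : (c : ℝ) ≤ |(c : ℝ)| := le_abs_self _
          have h9 : (p : ℝ) ^ 2 ≤ v ^ 2 := pow_le_pow_left₀ hp0 hpv 2
          linarith
        exact_mod_cast this
      simp only [forall_const]
      have e2 : 1 * (p : ℤ) ^ 2 + b * p + (c - n) = -((n : ℤ) - ((p : ℤ) ^ 2 + b * p + c)) := by ring
      rw [e2, Int.natAbs_neg]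
      constructor
      · rintro ⟨h7, h8⟩
        refine ⟨h7, _, h8, ?_⟩
        omega
      · rintro ⟨h7, q, h8, h9⟩
        refine ⟨h7, ?_⟩
        have : ((n : ℤ) - ((p : ℤ) ^ 2 + b * p + c)).natAbs = q := by omega
        rw [this]
        exact h8
    rw [hcount] at c4
    obtain ⟨T, hT⟩ : ∃ T, T = S * (v - u) / (Real.log v * Real.log n) := ⟨_, rfl⟩
    have hT0 : 0 ≤ T := by
      rw [hT]
      have : 0 ≤ v - u := (div_nonneg (by linarith) (by positivity)).trans hvu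
      have h5 := Real.log_nonneg hv0
      positivity
    have hT' : S * (v - u) / (Real.log v * Real.log M) = T * (Real.log n / Real.log M) := by
      rw [hT]
      rcases eq_or_ne (Real.log v) 0 with h | h
      · rw [h]
        simp
      · field_simp
    rw [hT'] at c4
    rw [← hT]
    obtain ⟨r, hr⟩ : ∃ r, r = Real.log n / Real.log M := ⟨_, rfl⟩
    rw [← hr] at c4 k8
    rw [abs_le] at c4 k8 ⊢
    have h1 : T * r ≤ T * (1 + ε / 4) := mul_le_mul_of_nonneg_left (by linarith [k8.2]) hT0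
    have h2 : T * (1 - ε / 4) ≤ T * r := mul_le_mul_of_nonneg_left (by linarith [k8.1]) hT0
    have h3 : ε / 4 * (T * r) ≤ ε / 4 * (T * (1 + ε / 4)) := mul_le_mul_of_nonneg_left h1 (by linarith)
    have h4 : ε / 4 * (T * (1 + ε / 4)) ≤ ε / 2 * T := by nlinarith
    constructor
    · nlinarith [c4.1]
    · nlinarith [c4.2]

end Pool.Agent.H563.UQ
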