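import Pool.Agent.H563.UQ.Dy

/-!
# The weights, the numbers of choices
-/

set_option autoImplicit false

namespace Pool.Agent.H563.UQ

open Finset Filter Topology
open scoped Classical

/-- `j` with `n ∈ (2 ^ j, 2 ^ (j + 1)]` -/
def sc (n : ℕ) : ℕ := Nat.log 2 (n - 1)

lemma sc_eq {j n : ℕ} (h1 : 2 ^ j < n) (h2 : n ≤ 2 ^ (j + 1)) : sc n = j := by
  unfold sc
  rw [Nat.log_eq_iff (Or.inr ⟨by norm_num, by
    have : 1 ≤ 2 ^ j := Nat.one_le_pow _ _ (by norm_num)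
    omega⟩)]
  constructor <;> omega

lemma sum_w (M : ℕ) : ∑ N ∈ range M, 1 / (((N : ℝ) + 1) * (N + 2)) ≤ 1 := by
  have h : ∑ N ∈ range M, 1 / (((N : ℝ) + 1) * (N + 2)) = 1 - 1 / ((M : ℝ) + 1) := by
    induction M with
    | zero => simp
    | succ M ih =>
      rw [sum_range_succ, ih]
      push_cast
      field_simp
      ring
  rw [h]
  have : 0 ≤ 1 / ((M : ℝ) + 1) := by positivity
  linarith

/-- the weight of `n` -/
noncomputable def wn (n : ℕ) : ℝ := (1 / 2) ^ (sc n + 2) / (((sc n : ℝ) + 1) * (sc n + 2))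

lemma wn_nonneg (n : ℕ) : 0 ≤ wn n := by
  unfold wn
  positivity

lemma sum_wn (F : Finset ℕ) : ∑ n ∈ F, wn n ≤ 1 := by
  obtain ⟨J, hJ⟩ : ∃ J, J = F.sup sc + 1 := ⟨_, rfl⟩
  have hmap : ∀ n ∈ F, sc n ∈ range J := by
    intro n hn
    rw [mem_range, hJ]
    exact Nat.lt_succ_of_le (le_sup hn)
  rw [← sum_fiberwise_of_maps_to hmap]
  refine le_trans (sum_le_sum ?_) (sum_w J)
  intro j _
  have h1 : ∑ n ∈ F.filter (fun n => sc n = j), wn n =
      ∑ _n ∈ F.filter (fun n => sc n = j), (1 / 2 : ℝ) ^ (j + 2) / (((j : ℝ) + 1) * (j + 2)) := by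
    apply sum_congr rfl
    intro n hn
    rw [mem_filter] at hn
    unfold wn
    rw [hn.2]
  rw [h1, sum_const, nsmul_eq_mul]
  have h2 : (F.filter (fun n => sc n = j)).card ≤ 2 ^ (j + 2) := by
    have h3 : F.filter (fun n => sc n = j) ⊆ range (2 ^ (j + 1) + 1) := by
      intro n hn
      rw [mem_filter] at hn
      rw [mem_range]
      have h4 : n - 1 < 2 ^ (j + 1) := by
        rw [← hn.2]
        exact Nat.lt_pow_succ_log_self (by norm_num) _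
      omega
    have h4 := card_le_card h3
    rw [card_range] at h4
    have h5 : 2 ^ (j + 2) = 2 ^ (j + 1) * 2 := pow_succ _ _
    have h6 : 1 ≤ 2 ^ (j + 1) := Nat.one_le_pow _ _ (by norm_num)
    omega
  have h3 : ((F.filter (fun n => sc n = j)).card : ℝ) ≤ 2 ^ (j + 2) := by exact_mod_cast h2
  have h4 : (2 : ℝ) ^ (j + 2) * (1 / 2) ^ (j + 2) = 1 := by
    rw [← mul_pow]
    norm_num
  calc ((F.filter (fun n => sc n = j)).card : ℝ) * ((1 / 2 : ℝ) ^ (j + 2) / (((j : ℝ) + 1) * (j + 2)))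
      ≤ 2 ^ (j + 2) * ((1 / 2 : ℝ) ^ (j + 2) / (((j : ℝ) + 1) * (j + 2))) :=
        mul_le_mul_of_nonneg_right h3 (by positivity)
    _ = (2 ^ (j + 2) * (1 / 2 : ℝ) ^ (j + 2)) / (((j : ℝ) + 1) * (j + 2)) := by ring
    _ = 1 / (((j : ℝ) + 1) * (j + 2)) := by rw [h4]

lemma sum_geo (G : Finset ℕ) : ∑ m ∈ G, (1 / 2 : ℝ) ^ (m + 1) ≤ 1 := by
  have h1 : G ⊆ range (G.sup id + 1) := by
    intro m hm
    rw [mem_range]
    exact Nat.lt_succ_of_le (le_sup (f := id) hm)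
  refine (sum_le_sum_of_subset_of_nonneg h1 (fun _ _ _ => by positivity)).trans ?_
  have h2 : ∀ M : ℕ, ∑ m ∈ range M, (1 / 2 : ℝ) ^ (m + 1) = 1 - (1 / 2) ^ M := by
    intro M
    induction M with
    | zero => simp
    | succ M ih =>
      rw [sum_range_succ, ih, pow_succ]
      ring
  rw [h2]
  have : (0 : ℝ) ≤ (1 / 2) ^ (G.sup id + 1) := by positivity
  linarith

/-- the weight of a pair -/
noncomputable def ww (x : ℕ × ℕ) : ℝ := (1 / 2) ^ (x.1 + 1) * wn x.2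

lemma ww_nonneg (x : ℕ × ℕ) : 0 ≤ ww x := by
  unfold ww
  have := wn_nonneg x.2
  positivity

lemma sum_ww (F : Finset (ℕ × ℕ)) : ∑ x ∈ F, ww x ≤ 1 := by
  have h1 : F ⊆ (F.image Prod.fst) ×ˢ (F.image Prod.snd) := by
    intro x hx
    rw [mem_product]
    exact ⟨mem_image_of_mem _ hx, mem_image_of_mem _ hx⟩
  refine (sum_le_sum_of_subset_of_nonneg h1 (fun x _ _ => ww_nonneg x)).trans ?_
  unfold ww
  rw [sum_product]
  simp only
  have h2 : ∑ m ∈ F.image Prod.fst, ∑ n ∈ F.image Prod.snd, (1 / 2 : ℝ) ^ (m + 1) * wn n =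
      (∑ m ∈ F.image Prod.fst, (1 / 2 : ℝ) ^ (m + 1)) * ∑ n ∈ F.image Prod.snd, wn n := by
    rw [sum_mul_sum]
  rw [h2]
  have h3 := sum_geo (F.image Prod.fst)
  have h4 := sum_wn (F.image Prod.snd)
  have h5 : 0 ≤ ∑ n ∈ F.image Prod.snd, wn n := sum_nonneg fun n _ => wn_nonneg n
  calc (∑ m ∈ F.image Prod.fst, (1 / 2 : ℝ) ^ (m + 1)) * ∑ n ∈ F.image Prod.snd, wn n
      ≤ 1 * 1 := mul_le_mul h3 h4 h5 (by norm_num)
    _ = 1 := one_mul 1

/-- the number of the choices in the block `i` -/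
noncomputable def kk (C₁ i₀ i : ℕ) : ℕ := if i < i₀ then 0 else ⌈Real.log i ^ (C₁ + 4)⌉₊

lemma pow_log_le (k : ℕ) (a : ℝ) (ha : 0 < a) : ∀ᶠ i : ℕ in atTop, Real.log ((i : ℝ) + 2) ^ k ≤ a * ((i : ℝ) + 2) := by
  have h1 := (Real.isLittleO_pow_log_id_atTop (n := k)).bound ha
  have tN : Tendsto (fun N : ℕ => (N : ℝ) + 2) atTop atTop :=
    tendsto_atTop_add_const_right _ _ tendsto_natCast_atTop_atTop
  filter_upwards [tN.eventually h1] with i hi
  have hi0 : (0 : ℝ) ≤ i := by positivity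
  have hl : 0 ≤ Real.log ((i : ℝ) + 2) := Real.log_nonneg (by linarith)
  rw [Real.norm_of_nonneg (pow_nonneg hl k)] at hi
  simp only [id] at hi
  rw [Real.norm_of_nonneg (by linarith)] at hi
  exact hi

lemma ev_kk (C₁ : ℕ) : ∀ᶠ i : ℕ in atTop, Real.log i ^ (C₁ + 4) ≤ i ∧
    (2 * Real.log ((i : ℝ) + 2)) ^ (C₁ + 1) ≤ (i : ℝ) + 1 ∧ 128 * ((i : ℝ) + 1) ^ 4 ≤ (Bp i).card := by
  have h4 := (isLittleO_pow_exp_pos_mul_atTop (k := 4) (b := Real.log 2 / 2) (by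
    have := Real.log_two_gt_d9
    positivity)).bound (show (0 : ℝ) < 1 / (128 * 16) by norm_num)
  have tN : Tendsto (fun N : ℕ => (N : ℝ)) atTop atTop := tendsto_natCast_atTop_atTop
  filter_upwards [pow_log_le (C₁ + 4) (1 / 2) (by norm_num), pow_log_le (C₁ + 1) (1 / (2 * 2 ^ (C₁ + 1))) (by positivity),
    tN.eventually h4, Bp_low, eventually_ge_atTop 2] with i h1 h2 h3 h5 hi2
  have hi : (2 : ℝ) ≤ i := by exact_mod_cast hi2
  have hl0 : 0 ≤ Real.log (i : ℝ) := Real.log_nonneg (by linarith)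
  refine ⟨?_, ?_, ?_⟩
  · calc Real.log (i : ℝ) ^ (C₁ + 4) ≤ Real.log ((i : ℝ) + 2) ^ (C₁ + 4) :=
          pow_le_pow_left₀ hl0 (Real.log_le_log (by linarith) (by linarith)) _
      _ ≤ 1 / 2 * ((i : ℝ) + 2) := h1
      _ ≤ i := by linarith
  · rw [mul_pow]
    calc 2 ^ (C₁ + 1) * Real.log ((i : ℝ) + 2) ^ (C₁ + 1) ≤
          2 ^ (C₁ + 1) * (1 / (2 * 2 ^ (C₁ + 1)) * ((i : ℝ) + 2)) := mul_le_mul_of_nonneg_left h2 (by positivity)
      _ = ((i : ℝ) + 2) / 2 := by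
          field_simp
      _ ≤ _ := by linarith
  · rw [Real.norm_of_nonneg (by positivity), Real.norm_of_nonneg (Real.exp_pos _).le] at h3
    have h6 : Real.exp (Real.log 2 / 2 * i) = (2 : ℝ) ^ ((i : ℝ) / 2) := by
      rw [Real.rpow_def_of_pos (by norm_num)]
      congr 1
      ring
    rw [h6] at h3
    have h7 : ((i : ℝ) + 1) ^ 4 ≤ 16 * (i : ℝ) ^ 4 := by
      calc ((i : ℝ) + 1) ^ 4 ≤ (2 * (i : ℝ)) ^ 4 := pow_le_pow_left₀ (by linarith) (by linarith) 4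
        _ = 16 * (i : ℝ) ^ 4 := by ring
    linarith

lemma hkk (C₁ : ℕ) : ∃ i₀ : ℕ, ∀ i, kk C₁ i₀ i = 0 ∨ (0 < (Bp i).card ∧
    (∑ i' ∈ range (i + 1), (kk C₁ i₀ i' : ℝ)) ≤ dd C₁ i / 2 * (Bp i).card) := by
  obtain ⟨i₀, hi₀⟩ := eventually_atTop.1 (ev_kk C₁)
  refine ⟨i₀, fun i => ?_⟩
  by_cases hi : i < i₀
  · left
    unfold kk
    rw [if_pos hi]
  · right
    push Not at hi
    obtain ⟨-, h2, h3⟩ := hi₀ i hi
    have hi0 : (0 : ℝ) ≤ i := by positivity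
    have hc : (0 : ℝ) < (Bp i).card := lt_of_lt_of_le (by positivity) h3
    refine ⟨by exact_mod_cast hc, ?_⟩
    have h4 : ∀ i' ∈ range (i + 1), (kk C₁ i₀ i' : ℝ) ≤ (i : ℝ) + 1 := by
      intro i' hi'
      rw [mem_range] at hi'
      have h5 : (i' : ℝ) ≤ i := by exact_mod_cast Nat.lt_succ_iff.1 hi'
      unfold kk
      split_ifs with h6
      · push_cast
        linarith
      · push Not at h6
        have h7 := (hi₀ i' h6).1
        have h8 : 0 ≤ Real.log (i' : ℝ) ^ (C₁ + 4) := pow_nonneg (Real.log_natCast_nonneg i') _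
        have h9 := (Nat.ceil_lt_add_one h8).le
        linarith
    refine (sum_le_sum h4).trans ?_
    rw [sum_const, card_range, nsmul_eq_mul]
    push_cast
    unfold dd
    have h5 : 0 < (2 * Real.log ((i : ℝ) + 2)) ^ (C₁ + 1) := by
      have := log_ge i
      positivity
    have h6 : 1 / (64 * ((i : ℝ) + 1) * ((i : ℝ) + 1)) ≤
        1 / (64 * ((i : ℝ) + 1) * (2 * Real.log ((i : ℝ) + 2)) ^ (C₁ + 1)) := by
      apply one_div_le_one_div_of_le (by positivity)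
      exact mul_le_mul_of_nonneg_left h2 (by positivity)
    have h7 : ((i : ℝ) + 1) * ((i : ℝ) + 1) ≤ 1 / (64 * ((i : ℝ) + 1) * ((i : ℝ) + 1)) / 2 * (Bp i).card := by
      calc ((i : ℝ) + 1) * ((i : ℝ) + 1) =
            1 / (64 * ((i : ℝ) + 1) * ((i : ℝ) + 1)) / 2 * (128 * ((i : ℝ) + 1) ^ 4) := by
            field_simp
            norm_num
        _ ≤ _ := mul_le_mul_of_nonneg_left h3 (by positivity)
    refine h7.trans ?_
    apply mul_le_mul_of_nonneg_right _ hc.le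
    linarith

/-- the number of the choices up to `x` is small -/
lemma ev_thin (C₁ : ℕ) : ∀ᶠ x : ℕ in atTop, ((Nat.log 2 x : ℝ) + 3) * (Real.log ((Nat.log 2 x : ℝ) + 3) ^ (C₁ + 4) + 1) ≤
    Real.log x * Real.log (Real.log x) ^ (C₁ + 5) := by
  have tL : Tendsto (fun N : ℕ => Real.log (N : ℝ)) atTop atTop :=
    Real.tendsto_log_atTop.comp tendsto_natCast_atTop_atTop
  have tLL : Tendsto (fun N : ℕ => Real.log (Real.log (N : ℝ))) atTop atTop := Real.tendsto_log_atTop.comp tL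
  filter_upwards [tL.eventually_ge_atTop 16, tLL.eventually_ge_atTop ((2 : ℝ) ^ (C₁ + 6)), eventually_ge_atTop 1]
    with x h1 h2 hx1
  have hl2 := Real.log_two_gt_d9
  have hx0 : (0 : ℝ) < x := by exact_mod_cast hx1
  obtain ⟨l, hl⟩ : ∃ l : ℝ, l = Real.log x := ⟨_, rfl⟩
  obtain ⟨a, ha⟩ : ∃ a : ℝ, a = Real.log l := ⟨_, rfl⟩
  obtain ⟨L, hL⟩ : ∃ L : ℝ, L = (Nat.log 2 x : ℝ) + 3 := ⟨_, rfl⟩
  rw [← hL]
  rw [← hl] at h1 h2 ⊢
  rw [← ha] at h2 ⊢
  have h3 : (Nat.log 2 x : ℝ) * Real.log 2 ≤ l := by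
    have h4 : 2 ^ Nat.log 2 x ≤ x := Nat.pow_log_le_self 2 (by omega)
    have h5 : (2 : ℝ) ^ Nat.log 2 x ≤ x := by exact_mod_cast h4
    have h6 := Real.log_le_log (by positivity) h5
    rw [Real.log_pow, ← hl] at h6
    exact h6
  have hLl : L ≤ 2 * l := by
    have h4 : (0 : ℝ) ≤ (Nat.log 2 x : ℝ) := by positivity
    rw [hL]
    nlinarith
  have hL1 : 1 ≤ L := by
    rw [hL]
    have h4 : (0 : ℝ) ≤ (Nat.log 2 x : ℝ) := by positivity
    linarith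
  have h8 : (1 : ℝ) ≤ 2 ^ (C₁ + 6) := one_le_pow₀ (by norm_num)
  have ha1 : 1 ≤ a := h8.trans h2
  have hLa : Real.log L ≤ 2 * a := by
    calc Real.log L ≤ Real.log (l * l) := Real.log_le_log (by linarith) (by nlinarith)
      _ = 2 * a := by
          rw [Real.log_mul (by linarith) (by linarith), ← ha]
          ring
  have hLn : 0 ≤ Real.log L := Real.log_nonneg hL1
  have h9 : Real.log L ^ (C₁ + 4) + 1 ≤ 2 ^ (C₁ + 5) * a ^ (C₁ + 4) := by
    have h10 : Real.log L ^ (C₁ + 4) ≤ 2 ^ (C₁ + 4) * a ^ (C₁ + 4) := by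
      rw [← mul_pow]
      exact pow_le_pow_left₀ hLn hLa _
    have h11 : (1 : ℝ) ≤ 2 ^ (C₁ + 4) * a ^ (C₁ + 4) := by
      rw [← mul_pow]
      exact one_le_pow₀ (by linarith)
    have h12 : (2 : ℝ) ^ (C₁ + 5) = 2 * 2 ^ (C₁ + 4) := by rw [pow_succ]; ring
    rw [h12]
    linarith
  calc L * (Real.log L ^ (C₁ + 4) + 1) ≤ (2 * l) * (2 ^ (C₁ + 5) * a ^ (C₁ + 4)) :=
        mul_le_mul hLl h9 (by positivity) (by linarith)
    _ = l * (2 ^ (C₁ + 6) * a ^ (C₁ + 4)) := by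
        rw [show (2 : ℝ) ^ (C₁ + 6) = 2 ^ (C₁ + 5) * 2 from pow_succ _ _]
        ring
    _ ≤ l * (a * a ^ (C₁ + 4)) := by
        apply mul_le_mul_of_nonneg_left _ (by linarith)
        exact mul_le_mul_of_nonneg_right h2 (by positivity)
    _ = l * a ^ (C₁ + 5) := by
        rw [show a ^ (C₁ + 5) = a ^ (C₁ + 4) * a from pow_succ _ _]
        ring

end Pool.Agent.H563.UQ
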